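import Pool.Agent.SLT.DefsE

/-! SLOPES, one third (helper64): the admissible `E` are equidistributed in the classes `a + d E` mod 3 -/

set_option autoImplicit false

namespace Pool.Agent.SL

open Finset Filter Topology

theorem cntI_false (y : ℤ) (x : ℕ) (P : ℤ → Prop) (h : ∀ a, ¬ P a) : cntI P y x = 0 := by
  classical
  rw [cntI_eq, Finset.card_eq_zero, Finset.filter_eq_empty_iff]
  exact fun a _ => h a

/-- translation between two classes -/
theorem class_shift (a : ℤ) (d t v t' : ℕ) (ht : t = 3 ^ v * t') (h3 : ¬ 3 ∣ d * t') (κ κ' : ℤ)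
    (h0 : 0 ≤ κ') (h0' : κ' < 3) (hk : v = 0 ∨ κ' ≠ 0) (y : ℤ) (x : ℕ) :
    nAE a d t κ y x ≤ nAE a d t κ' y x + 4 * t' := by
  obtain ⟨j, hj0, hj2, hj⟩ : ∃ j : ℤ, 0 ≤ j ∧ j ≤ 2 ∧ ((κ - 2 * ((d * t' : ℕ) : ℤ) * j) % 3 = κ') := by
    have hd3 : ((d * t' : ℕ) : ℤ) % 3 = 1 ∨ ((d * t' : ℕ) : ℤ) % 3 = 2 := by omega
    set D : ℤ := ((d * t' : ℕ) : ℤ) with hD
    have key : ∀ j : ℤ, (κ - 2 * D * j) % 3 = (κ % 3 - 2 * (D % 3) * j) % 3 := by
      intro j
      have h6 := Int.emod_add_mul_ediv κ 3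
      have h7 := Int.emod_add_mul_ediv D 3
      have h8 : κ - 2 * D * j = (κ % 3 - 2 * (D % 3) * j) + 3 * (κ / 3 - 2 * (D / 3) * j) := by
        linear_combination -h6 + (2 * j) * h7
      rw [h8, Int.add_mul_emod_self_left]
    have hκ3 : κ % 3 = 0 ∨ κ % 3 = 1 ∨ κ % 3 = 2 := by omega
    have hκ3' : κ' = 0 ∨ κ' = 1 ∨ κ' = 2 := by omega
    rcases hd3 with hd3 | hd3 <;> rcases hκ3 with hκ3 | hκ3 | hκ3 <;> rcases hκ3' with hκ3' | hκ3' | hκ3' <;>
      first
        | (refine ⟨0, by norm_num, by norm_num, ?_⟩; rw [key, hd3, hκ3, hκ3']; rfl)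
        | (refine ⟨1, by norm_num, by norm_num, ?_⟩; rw [key, hd3, hκ3, hκ3']; rfl)
        | (refine ⟨2, by norm_num, by norm_num, ?_⟩; rw [key, hd3, hκ3, hκ3']; rfl)
  set c : ℤ := 2 * (t' : ℤ) * j with hc
  have hcabs : c.natAbs ≤ 4 * t' := by
    have h1 : 0 ≤ c := by positivity
    have h2 : c ≤ 4 * (t' : ℤ) := by
      have : (0 : ℤ) ≤ t' := Int.natCast_nonneg _
      nlinarith
    omega
  have hP : ∀ E, PE a d t κ E → PE a d t κ' (E - c) := by
    rintro E ⟨h1, h2, h4⟩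
    have e1 : a + (d : ℤ) * (E - c) = a + d * E - 2 * ((d * t' : ℕ) : ℤ) * j := by
      rw [hc]
      push_cast
      ring
    have hmod : (a + (d : ℤ) * (E - c)) % 3 = κ' := by
      rw [e1, ← hj]
      have : (a + (d : ℤ) * E) % 3 = κ % 3 := by rw [← h4]; simp
      omega
    refine ⟨?_, ?_, hmod⟩
    · rw [← Int.isCoprime_iff_gcd_eq_one] at h1 ⊢
      have e2 : ((d * t : ℕ) : ℤ) = ((d * t' : ℕ) : ℤ) * 3 ^ v := by
        rw [ht]
        push_cast
        ring
      rw [e2] at h1 ⊢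
      refine IsCoprime.mul_right ?_ ?_
      · have h5 := h1.of_mul_right_left
        rw [e1]
        have e3 : a + (d : ℤ) * E - 2 * ((d * t' : ℕ) : ℤ) * j = a + d * E + ((d * t' : ℕ) : ℤ) * (-(2 * j)) := by ring
        rw [e3]
        exact h5.add_mul_left_left _
      · rcases hk with hk | hk
        · rw [hk, pow_zero]
          exact isCoprime_one_right
        · refine IsCoprime.pow_right ?_
          have h6 : ¬ (3 : ℤ) ∣ a + (d : ℤ) * (E - c) := by omega
          exact (((Int.prime_three.irreducible.coprime_iff_not_dvd).2 h6)).symm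
    · rcases Int.prime_two.dvd_or_dvd h2 with h7 | h7
      · refine Dvd.dvd.mul_right ?_ _
        rw [e1]
        have e3 : a + (d : ℤ) * E - 2 * ((d * t' : ℕ) : ℤ) * j = a + d * E - 2 * (((d * t' : ℕ) : ℤ) * j) := by ring
        rw [e3]
        omega
      · exact Dvd.dvd.mul_left h7 _
  have h1 : nAE a d t κ y x ≤ cntI (fun E => PE a d t κ' (E - c)) y x := cntI_mono hP y x
  have h2 := cntI_shift (PE a d t κ') y x c
  exact h1.trans (h2.trans (Nat.add_le_add_left hcabs _))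

/-- the admissible `E` -/
def AE (a : ℤ) (d t : ℕ) (E : ℤ) : Prop :=
  Int.gcd (a + d * E) ((d * t : ℕ) : ℤ) = 1 ∧ 2 ∣ (a + d * E) * ((d * t : ℕ) : ℤ)

/-- there are many admissible `E` -/
theorem adm_many (a : ℤ) (d t : ℕ) (ht : 0 < t) (had : Int.gcd a d = 1) (y : ℤ) (x T : ℕ)
    (hT : T * (2 * t) ≤ x) : T ≤ cntI (AE a d t) y x := by
  obtain ⟨c, hc1, hc2⟩ : ∃ c : ℤ, Int.gcd (a + d * c) ((d * t : ℕ) : ℤ) = 1 ∧
      2 ∣ (a + d * c) * ((d * t : ℕ) : ℤ) := by
    have hcd : ∀ c : ℤ, IsCoprime (a + d * c) (d : ℤ) := fun c => by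
      rw [← Int.isCoprime_iff_gcd_eq_one] at had
      exact had.add_mul_left_left _
    have hnd : ∀ (c : ℤ) (p : ℕ), p.Prime → (p : ℤ) ∣ a + d * c → ¬ p ∣ d := by
      intro c p hp h1 h2
      have h3 : Int.gcd (a + d * c) d = 1 := Int.isCoprime_iff_gcd_eq_one.1 (hcd c)
      have h5 : (p : ℤ) ∣ (Int.gcd (a + d * c) d : ℤ) := Int.dvd_coe_gcd h1 (by exact_mod_cast h2)
      rw [h3] at h5
      have h6 : p ∣ 1 := by exact_mod_cast h5
      exact hp.one_lt.ne' (Nat.dvd_one.1 h6)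
    by_cases h2 : 2 ∣ d * t
    · obtain ⟨k, hk⟩ := exists_cop a d t ht (by
        intro p hp _ hpa
        exact hnd 0 p hp (by simpa using hpa))
      refine ⟨k, ?_, Dvd.dvd.mul_left (by exact_mod_cast h2) _⟩
      rw [← Int.isCoprime_iff_gcd_eq_one] at hk ⊢
      push_cast
      exact IsCoprime.mul_right (hcd k) hk
    · have hd2 : ¬ (2 : ℤ) ∣ d := fun h => h2 (Dvd.dvd.mul_right (by exact_mod_cast h) _)
      have ht2 : ¬ 2 ∣ t := fun h => h2 (Dvd.dvd.mul_left h _)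
      obtain ⟨e, he⟩ : ∃ e : ℤ, (2 : ℤ) ∣ a + d * e := by
        by_cases ha : (2 : ℤ) ∣ a
        · exact ⟨0, by simpa using ha⟩
        · exact ⟨1, by omega⟩
      obtain ⟨k, hk⟩ := exists_cop (a + d * e) (2 * d) t ht (by
        intro p hp hpt hpa hp2
        rcases hp.dvd_mul.1 hp2 with h5 | h5
        · have h6 : p = 2 := (Nat.prime_dvd_prime_iff_eq hp Nat.prime_two).1 h5
          rw [h6] at hpt
          exact ht2 hpt
        · exact hnd e p hp hpa h5)
      have e1 : a + (d : ℤ) * (e + 2 * k) = a + d * e + ((2 * d : ℕ) : ℤ) * k := by push_cast; ring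
      refine ⟨e + 2 * k, ?_, ?_⟩
      · rw [← Int.isCoprime_iff_gcd_eq_one] at hk ⊢
        rw [← e1] at hk
        push_cast
        exact IsCoprime.mul_right (hcd _) hk
      · refine Dvd.dvd.mul_right ?_ _
        have e2 : a + (d : ℤ) * (e + 2 * k) = a + d * e + 2 * (d * k) := by ring
        rw [e2]
        omega
  refine (cntI_class (2 * t) (by omega) c y x T hT).trans (cntI_mono (fun E hE => ?_) y x)
  obtain ⟨k, hk⟩ := hE
  push_cast at hk
  have e1 : a + (d : ℤ) * E = a + d * c + ((d * t : ℕ) : ℤ) * (2 * k) := by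
    have : E = c + 2 * t * k := by linarith
    rw [this]
    push_cast
    ring
  refine ⟨?_, ?_⟩
  · rw [← Int.isCoprime_iff_gcd_eq_one] at hc1 ⊢
    rw [e1]
    exact hc1.add_mul_left_left _
  · rw [e1]
    have e2 : (a + (d : ℤ) * c + ((d * t : ℕ) : ℤ) * (2 * k)) * ((d * t : ℕ) : ℤ) =
        (a + d * c) * ((d * t : ℕ) : ℤ) + 2 * (((d * t : ℕ) : ℤ) * k * ((d * t : ℕ) : ℤ)) := by ring
    rw [e2]
    exact dvd_add hc2 (dvd_mul_right _ _)

theorem cnt_three (P : ℤ → Prop) (f : ℤ → ℤ) (y : ℤ) (x : ℕ) :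
    cntI P y x = cntI (fun E => P E ∧ f E % 3 = 0) y x + cntI (fun E => P E ∧ f E % 3 = 1) y x +
      cntI (fun E => P E ∧ f E % 3 = 2) y x := by
  classical
  rw [cntI_eq, cntI_eq, cntI_eq, cntI_eq]
  rw [← Finset.card_union_of_disjoint, ← Finset.card_union_of_disjoint]
  · congr 1
    ext E
    simp only [Finset.mem_union, Finset.mem_filter]
    have : f E % 3 = 0 ∨ f E % 3 = 1 ∨ f E % 3 = 2 := by omega
    tauto
  · rw [Finset.disjoint_left]
    intro E h1 h2
    simp only [Finset.mem_union, Finset.mem_filter] at h1 h2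
    omega
  · rw [Finset.disjoint_left]
    intro E h1 h2
    simp only [Finset.mem_filter] at h1 h2
    omega

theorem pe_iff (a : ℤ) (d t : ℕ) (κ E : ℤ) : PE a d t κ E ↔ AE a d t E ∧ (a + d * E) % 3 = κ := by
  unfold PE PA AE
  tauto

/-- the three counts -/
theorem counts (a : ℤ) (d t : ℕ) (y : ℤ) (x : ℕ) :
    cntI (AE a d t) y x = nAE a d t 0 y x + nAE a d t 1 y x + nAE a d t 2 y x ∧
    cntI (AE a d t) y x = cntI (fun E => GoodP (a + d * E) ((d * t : ℕ) : ℤ)) y x +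
      (nBE a d t 0 y x + nBE a d t 1 y x + nBE a d t 2 y x) := by
  classical
  have e : ∀ κ : ℤ, (fun E => AE a d t E ∧ (a + d * E) % 3 = κ) = PE a d t κ := fun κ => by
    funext E
    exact propext (pe_iff a d t κ E).symm
  constructor
  · have h1 := cnt_three (AE a d t) (fun E => a + d * E) y x
    rw [e 0, e 1, e 2] at h1
    exact h1
  · have e' : ∀ κ : ℤ, (fun E => (AE a d t E ∧ ¬ GoodP (a + d * E) ((d * t : ℕ) : ℤ)) ∧ (a + d * E) % 3 = κ) =
        fun E => PE a d t κ E ∧ ¬ GoodP (a + d * E) ((d * t : ℕ) : ℤ) := fun κ => by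
      funext E
      apply propext
      rw [pe_iff]
      tauto
    have h1 := cnt_three (fun E => AE a d t E ∧ ¬ GoodP (a + d * E) ((d * t : ℕ) : ℤ)) (fun E => a + d * E) y x
    rw [e' 0, e' 1, e' 2] at h1
    have h2 : cntI (AE a d t) y x = cntI (fun E => GoodP (a + d * E) ((d * t : ℕ) : ℤ)) y x +
        cntI (fun E => AE a d t E ∧ ¬ GoodP (a + d * E) ((d * t : ℕ) : ℤ)) y x := by
      rw [cntI_eq, cntI_eq, cntI_eq, ← Finset.card_union_of_disjoint]
      · congr 1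
        ext E
        simp only [Finset.mem_union, Finset.mem_filter]
        have h3 : GoodP (a + d * E) ((d * t : ℕ) : ℤ) → AE a d t E := fun h => ⟨h.1, h.2.1⟩
        tauto
      · rw [Finset.disjoint_left]
        intro E h3 h4
        exact (Finset.mem_filter.1 h4).2.2 (Finset.mem_filter.1 h3).2
    unfold nBE
    rw [h2, h1]

theorem convE (t : ℕ) (ht : 0 < t) (δ : ℝ) (hδ : 0 < δ) : ∃ H : ℕ, ∀ (a : ℤ) (d : ℕ) (y : ℤ) (x : ℕ), 0 < d →
    Int.gcd a d = 1 → H ≤ x →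
    (¬ 3 ∣ d * t → 3 * (1 - shE a d t y x) - δ ≤ FBE a d t 0 y x + FBE a d t 1 y x + FBE a d t 2 y x) ∧
    (¬ 3 ∣ d → 3 ∣ t → 2 * (1 - shE a d t y x) - δ ≤ FBE a d t 1 y x + FBE a d t 2 y x) ∧
    (3 ∣ d → 1 - shE a d t y x - δ ≤ FBE a d t (a % 3) y x) := by
  obtain ⟨T, hT⟩ := exists_nat_gt (24 * (t : ℝ) / δ)
  refine ⟨T * (2 * t), fun a d y x hd had hx => ?_⟩
  obtain ⟨v, t', h3t', htt'⟩ := Nat.exists_eq_pow_mul_and_not_dvd ht.ne' 3 (by norm_num)
  have hNT := adm_many a d t ht had y x T hx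
  obtain ⟨hc1, hc2⟩ := counts a d t y x
  set N : ℕ := cntI (AE a d t) y x with hN
  have hNR : 24 * (t : ℝ) ≤ δ * N := by
    have h1 : (T : ℝ) ≤ N := by exact_mod_cast hNT
    have h2 : 24 * (t : ℝ) / δ < N := lt_of_lt_of_le hT h1
    rw [div_lt_iff₀ hδ] at h2
    linarith
  have hN0 : (0 : ℝ) < N := by
    have h1 : (T : ℝ) ≤ N := by exact_mod_cast hNT
    exact lt_of_lt_of_le (lt_of_le_of_lt (by positivity) hT) h1
  have ht't : (t' : ℝ) ≤ t := by
    have : t' ≤ t := by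
      rw [htt']
      exact Nat.le_mul_of_pos_left _ (pow_pos (by norm_num) _)
    exact_mod_cast this
  have hsh : (1 - shE a d t y x) * N = nBE a d t 0 y x + nBE a d t 1 y x + nBE a d t 2 y x := by
    have h1 : shE a d t y x = (cntI (fun E => GoodP (a + d * E) ((d * t : ℕ) : ℤ)) y x : ℝ) / N := rfl
    rw [h1, sub_mul, div_mul_cancel₀ _ hN0.ne', one_mul]
    have h2 : (N : ℝ) = cntI (fun E => GoodP (a + d * E) ((d * t : ℕ) : ℤ)) y x +
      (nBE a d t 0 y x + nBE a d t 1 y x + nBE a d t 2 y x) := by exact_mod_cast hc2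
    linarith
  have hc1R : (N : ℝ) = nAE a d t 0 y x + nAE a d t 1 y x + nAE a d t 2 y x := by exact_mod_cast hc1
  have hm0 := FBE_mul a d t 0 y x
  have hm1 := FBE_mul a d t 1 y x
  have hm2 := FBE_mul a d t 2 y x
  have hF0 := FBE_nonneg a d t 0 y x
  have hF1 := FBE_nonneg a d t 1 y x
  have hF2 := FBE_nonneg a d t 2 y x
  have hl0 := FBE_le a d t 0 y x
  have hl1 := FBE_le a d t 1 y x
  have hl2 := FBE_le a d t 2 y x
  have htR : (0 : ℝ) < t := by exact_mod_cast ht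
  refine ⟨?_, ?_, ?_⟩
  · intro h3
    have hv : v = 0 := by
      by_contra hv
      apply h3
      rw [htt']
      exact Dvd.dvd.mul_left ((dvd_pow_self 3 hv).mul_right _) _
    have h3' : ¬ 3 ∣ d * t' := fun h => h3 (by
      rw [htt']
      exact h.trans ⟨3 ^ v, by ring⟩)
    have key : ∀ κ κ' : ℤ, 0 ≤ κ' → κ' < 3 → (nAE a d t κ y x : ℝ) ≤ nAE a d t κ' y x + 4 * t := by
      intro κ κ' h0 h0'
      have h5 := class_shift a d t v t' htt' h3' κ κ' h0 h0' (Or.inl hv) y x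
      have h6 : (nAE a d t κ y x : ℝ) ≤ nAE a d t κ' y x + 4 * t' := by exact_mod_cast h5
      linarith
    have k01 := key 0 1 (by norm_num) (by norm_num)
    have k02 := key 0 2 (by norm_num) (by norm_num)
    have k10 := key 1 0 (by norm_num) (by norm_num)
    have k12 := key 1 2 (by norm_num) (by norm_num)
    have k20 := key 2 0 (by norm_num) (by norm_num)
    have k21 := key 2 1 (by norm_num) (by norm_num)
    have u0 : 3 * (nBE a d t 0 y x : ℝ) ≤ FBE a d t 0 y x * N + 8 * t := by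
      rw [← hm0]
      nlinarith
    have u1 : 3 * (nBE a d t 1 y x : ℝ) ≤ FBE a d t 1 y x * N + 8 * t := by
      rw [← hm1]
      nlinarith
    have u2 : 3 * (nBE a d t 2 y x : ℝ) ≤ FBE a d t 2 y x * N + 8 * t := by
      rw [← hm2]
      nlinarith
    have hfin : (3 * (1 - shE a d t y x) - δ) * N ≤ (FBE a d t 0 y x + FBE a d t 1 y x + FBE a d t 2 y x) * N := by
      have : (3 * (1 - shE a d t y x) - δ) * N = 3 * ((1 - shE a d t y x) * N) - δ * N := by ring
      rw [this, hsh]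
      linarith
    exact le_of_mul_le_mul_right hfin hN0
  · intro h3d h3t
    have h3' : ¬ 3 ∣ d * t' := fun h => by
      rcases Nat.prime_three.dvd_mul.1 h with h | h
      · exact h3d h
      · exact h3t' h
    have hA0 : nAE a d t 0 y x = 0 := cntI_false _ _ _ (by
      rintro E ⟨h1, _, h2⟩
      have h4 : (3 : ℤ) ∣ a + d * E := Int.dvd_of_emod_eq_zero h2
      have h5 : (3 : ℤ) ∣ ((d * t : ℕ) : ℤ) := by exact_mod_cast h3t.mul_left d
      have h6 : (3 : ℤ) ∣ (Int.gcd (a + d * E) ((d * t : ℕ) : ℤ) : ℤ) := Int.dvd_coe_gcd h4 h5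
      rw [h1] at h6
      norm_num at h6)
    have hB0 : nBE a d t 0 y x = 0 := Nat.eq_zero_of_le_zero (hA0 ▸ nBE_le_nAE a d t 0 y x)
    rw [hA0] at hc1R
    rw [hB0] at hsh
    push_cast at hc1R hsh
    have key : ∀ κ κ' : ℤ, 0 < κ' → κ' < 3 → (nAE a d t κ y x : ℝ) ≤ nAE a d t κ' y x + 4 * t := by
      intro κ κ' h0 h0'
      have h5 := class_shift a d t v t' htt' h3' κ κ' h0.le h0' (Or.inr h0.ne') y x
      have h6 : (nAE a d t κ y x : ℝ) ≤ nAE a d t κ' y x + 4 * t' := by exact_mod_cast h5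
      linarith
    have k12 := key 1 2 (by norm_num) (by norm_num)
    have k21 := key 2 1 (by norm_num) (by norm_num)
    have u1 : 2 * (nBE a d t 1 y x : ℝ) ≤ FBE a d t 1 y x * N + 4 * t := by
      rw [← hm1]
      nlinarith
    have u2 : 2 * (nBE a d t 2 y x : ℝ) ≤ FBE a d t 2 y x * N + 4 * t := by
      rw [← hm2]
      nlinarith
    have hfin : (2 * (1 - shE a d t y x) - δ) * N ≤ (FBE a d t 1 y x + FBE a d t 2 y x) * N := by
      have : (2 * (1 - shE a d t y x) - δ) * N = 2 * ((1 - shE a d t y x) * N) - δ * N := by ring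
      rw [this, hsh]
      linarith
    exact le_of_mul_le_mul_right hfin hN0
  · intro h3d
    have h3dZ : (3 : ℤ) ∣ d := by exact_mod_cast h3d
    have hmod : ∀ E : ℤ, (a + d * E) % 3 = a % 3 := by
      intro E
      have : (3 : ℤ) ∣ d * E := h3dZ.mul_right _
      omega
    have hzA : ∀ κ : ℤ, κ ≠ a % 3 → nAE a d t κ y x = 0 := fun κ hκ => cntI_false _ _ _ (by
      rintro E ⟨_, _, h2⟩
      exact hκ (by rw [← h2, hmod]))
    have hzB : ∀ κ : ℤ, κ ≠ a % 3 → nBE a d t κ y x = 0 := fun κ hκ =>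
      Nat.eq_zero_of_le_zero (hzA κ hκ ▸ nBE_le_nAE a d t κ y x)
    have h4 : a % 3 = 0 ∨ a % 3 = 1 ∨ a % 3 = 2 := by omega
    have hm := FBE_mul a d t (a % 3) y x
    have hNe : (N : ℝ) = nAE a d t (a % 3) y x ∧ (1 - shE a d t y x) * N = nBE a d t (a % 3) y x := by
      rcases h4 with h4 | h4 | h4
      · rw [hsh, hc1R, hzA 1 (by rw [h4]; norm_num), hzA 2 (by rw [h4]; norm_num), hzB 1 (by rw [h4]; norm_num),
          hzB 2 (by rw [h4]; norm_num), h4]
        simp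
      · rw [hsh, hc1R, hzA 0 (by rw [h4]; norm_num), hzA 2 (by rw [h4]; norm_num), hzB 0 (by rw [h4]; norm_num),
          hzB 2 (by rw [h4]; norm_num), h4]
        simp
      · rw [hsh, hc1R, hzA 0 (by rw [h4]; norm_num), hzA 1 (by rw [h4]; norm_num), hzB 0 (by rw [h4]; norm_num),
          hzB 1 (by rw [h4]; norm_num), h4]
        simp
    have hfin : (1 - shE a d t y x - δ) * N ≤ FBE a d t (a % 3) y x * N := by
      rw [sub_mul, hNe.2, ← hm, ← hNe.1]
      have := mul_pos hδ hN0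
      linarith
    exact le_of_mul_le_mul_right hfin hN0

end Pool.Agent.SL
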