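import Pool.Agent.SL4.Dhl4
import Pool.Agent.SLD.Step

/-! SLOPES, one third (helper64): definitions.

Vertices are linear forms `v.1 n + v.2` (slope, constant term).  `Ext x v`: the slope of `v` is `d` times that of `x`, all
primes of the slope of `x` divide `d`, and `v` is not `d x`.  `BadP x v`: the pair `(v.2 - d x.2, d)` is not good. -/

set_option autoImplicit false

namespace Pool.Agent.SL

open Finset Filter Topology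

/-- admissible `a` in the class `κ` mod 3 -/
def PA (d : ℕ) (κ : ℤ) (a : ℤ) : Prop := Int.gcd a d = 1 ∧ 2 ∣ a * d ∧ a % 3 = κ

/-- `v` extends `x` -/
def Ext (x v : ℕ × ℤ) : Prop := ∃ d : ℕ, v.1 = d * x.1 ∧ x.1 ∣ d ∧ v.2 ≠ d * x.2

/-- the pair of `x` and `v` is not good -/
def BadP (x v : ℕ × ℤ) : Prop := ¬ GoodP (v.2 - (v.1 / x.1 : ℕ) * x.2) (v.1 / x.1 : ℕ)

/-- the local conditions of a vertex -/
def OkV (S : Set ℕ) (v : ℕ × ℤ) : Prop := v.1 ∈ S ∧ Int.gcd v.2 v.1 = 1 ∧ ¬ (2 : ℤ) ∣ v.2 ∧ ¬ (3 : ℤ) ∣ v.2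

/-- the density of bad pairs between the old vertex `x` and new vertices of type `L` mod 3 -/
noncomputable def tyd (φ : ℕ → ℤ → ℝ) (L x : ℕ × ℤ) : ℝ :=
  φ ((L.1 * x.1) % 3) ((L.2 - ((L.1 * x.1 % 3 : ℕ) : ℤ) * x.2) % 3)

theorem tyd_congr (φ : ℕ → ℤ → ℝ) (L x x' : ℕ × ℤ) (h1 : x.1 % 3 = x'.1 % 3) (h2 : x.2 % 3 = x'.2 % 3) :
    tyd φ L x = tyd φ L x' := by
  unfold tyd
  have e1 : (L.1 * x.1) % 3 = (L.1 * x'.1) % 3 := by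
    rw [Nat.mul_mod, h1, ← Nat.mul_mod]
  have e2 : (L.2 - ((L.1 * x.1 % 3 : ℕ) : ℤ) * x.2) % 3 = (L.2 - ((L.1 * x'.1 % 3 : ℕ) : ℤ) * x'.2) % 3 := by
    rw [e1, Int.sub_emod, Int.mul_emod, h2, ← Int.mul_emod, ← Int.sub_emod]
  rw [e2, e1]

/-- four groups of `N` vertices (only the first `m`): constant classes mod `Q`, types `L`, all cross pairs bad -/
def Grp (S : Set ℕ) (Q : ℕ) (L : ℕ → ℕ × ℤ) (m N : ℕ) : Prop :=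
  ∃ A : ℕ → Finset (ℕ × ℤ), ∀ i < m, N ≤ (A i).card ∧
    (∀ x ∈ A i, OkV S x ∧ x.1 % 3 = (L i).1 ∧ x.2 % 3 = (L i).2) ∧
    (∀ x ∈ A i, ∀ y ∈ A i, x.1 % Q = y.1 % Q ∧ x.2 % (Q : ℤ) = y.2 % (Q : ℤ)) ∧
    (∀ x ∈ A i, ∀ y ∈ A i, x ≠ y → (x.1 : ℤ) * y.2 ≠ y.1 * x.2) ∧
    (∀ j < i, ∀ x ∈ A j, ∀ y ∈ A i, Ext x y ∧ BadP x y)

/-- one new vertex of type `L`, bad with the expected proportion of the old ones (linear functional `w`) -/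
def NewV (S : Set ℕ) (φ : ℕ → ℤ → ℝ) (L : ℕ × ℤ) : Prop :=
  ∀ W : Finset (ℕ × ℤ), (∀ x ∈ W, OkV S x) → ∀ w : ℕ × ℤ → ℝ, (∀ x, 0 ≤ w x) → ∀ δ : ℝ, 0 < δ →
    ∃ v : ℕ × ℤ, OkV S v ∧ v.1 % 3 = L.1 ∧ v.2 % 3 = L.2 ∧ (∀ x ∈ W, Ext x v) ∧
      ∑ x ∈ W, w x * tyd φ L x ≤ ∑ x ∈ W, (open Classical in if BadP x v then w x else 0) + δ

end Pool.Agent.SL
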