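import Pool.Agent.SLT.StepA

/-! SLOPES, one third (helper64): modifications `(a + d E, d t)` of a pair `(a, d)` -/

set_option autoImplicit false

namespace Pool.Agent.SL

open Finset Filter Topology

/-- `(a + d E, d t)` is admissible and `a + d E ≡ κ` mod 3 -/
def PE (a : ℤ) (d t : ℕ) (κ : ℤ) (E : ℤ) : Prop := PA (d * t) κ (a + d * E)

/-- number of `E` in `(y, y + x]` with `(a + d E, d t)` admissible, `a + d E ≡ κ` mod 3 -/
noncomputable def nAE (a : ℤ) (d t : ℕ) (κ y : ℤ) (x : ℕ) : ℕ := cntI (PE a d t κ) y x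

/-- number of `E` in `(y, y + x]` with `(a + d E, d t)` admissible but not good, `a + d E ≡ κ` mod 3 -/
noncomputable def nBE (a : ℤ) (d t : ℕ) (κ y : ℤ) (x : ℕ) : ℕ :=
  cntI (fun E => PE a d t κ E ∧ ¬ GoodP (a + d * E) ((d * t : ℕ) : ℤ)) y x

/-- proportion of the bad `E` -/
noncomputable def FBE (a : ℤ) (d t : ℕ) (κ y : ℤ) (x : ℕ) : ℝ := (nBE a d t κ y x : ℝ) / (nAE a d t κ y x : ℝ)

/-- proportion of the good `E` among the admissible `E` in `(y, y + x]` -/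
noncomputable def shE (a : ℤ) (d t : ℕ) (y : ℤ) (x : ℕ) : ℝ :=
  (cntI (fun E => GoodP (a + d * E) ((d * t : ℕ) : ℤ)) y x : ℝ) /
    (cntI (fun E => Int.gcd (a + d * E) ((d * t : ℕ) : ℤ) = 1 ∧ 2 ∣ (a + d * E) * ((d * t : ℕ) : ℤ)) y x : ℝ)

theorem nBE_le_nAE (a : ℤ) (d t : ℕ) (κ y : ℤ) (x : ℕ) : nBE a d t κ y x ≤ nAE a d t κ y x :=
  cntI_mono (fun _ h => h.1) y x

theorem FBE_nonneg (a : ℤ) (d t : ℕ) (κ y : ℤ) (x : ℕ) : 0 ≤ FBE a d t κ y x := by unfold FBE; positivity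

theorem FBE_le (a : ℤ) (d t : ℕ) (κ y : ℤ) (x : ℕ) : FBE a d t κ y x ≤ 1 := by
  unfold FBE
  refine div_le_one_of_le₀ ?_ (Nat.cast_nonneg _)
  exact_mod_cast nBE_le_nAE a d t κ y x

theorem FBE_mul (a : ℤ) (d t : ℕ) (κ y : ℤ) (x : ℕ) : FBE a d t κ y x * nAE a d t κ y x = nBE a d t κ y x := by
  unfold FBE
  rcases Nat.eq_zero_or_pos (nAE a d t κ y x) with h | h
  · have := nBE_le_nAE a d t κ y x
    have h2 : nBE a d t κ y x = 0 := by omega
    rw [h, h2]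
    simp
  · rw [div_mul_cancel₀]
    exact_mod_cast h.ne'

theorem shE_nonneg (a : ℤ) (d t : ℕ) (y : ℤ) (x : ℕ) : 0 ≤ shE a d t y x := by unfold shE; positivity

theorem shE_le (a : ℤ) (d t : ℕ) (y : ℤ) (x : ℕ) : shE a d t y x ≤ 1 := by
  unfold shE
  refine div_le_one_of_le₀ ?_ (Nat.cast_nonneg _)
  have h1 := cntI_mono (P := fun E => GoodP (a + d * E) ((d * t : ℕ) : ℤ))
    (Q := fun E => Int.gcd (a + d * E) ((d * t : ℕ) : ℤ) = 1 ∧ 2 ∣ (a + d * E) * ((d * t : ℕ) : ℤ))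
    (fun E h => ⟨h.1, h.2.1⟩) y x
  exact_mod_cast h1

/-- a member of an arithmetic progression coprime to `N` -/
theorem exists_cop (a : ℤ) (n N : ℕ) (hN : 0 < N)
    (h : ∀ p : ℕ, p.Prime → p ∣ N → (p : ℤ) ∣ a → ¬ p ∣ n) : ∃ k : ℤ, Int.gcd (a + n * k) N = 1 := by
  classical
  set P : ℕ := ∏ p ∈ N.primeFactors.filter (fun p : ℕ => ¬ (p : ℤ) ∣ a), p with hP
  refine ⟨P, ?_⟩
  by_contra hcon
  obtain ⟨p, hp, hpd⟩ := Nat.exists_prime_and_dvd hcon
  have h1 : (p : ℤ) ∣ a + n * P := (Int.natCast_dvd_natCast.2 hpd).trans (Int.gcd_dvd_left _ _)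
  have h2 : p ∣ N := by
    have : (p : ℤ) ∣ N := (Int.natCast_dvd_natCast.2 hpd).trans (Int.gcd_dvd_right _ _)
    exact_mod_cast this
  by_cases h3 : (p : ℤ) ∣ a
  · have h4 : (p : ℤ) ∣ (n : ℤ) * P := (dvd_add_right h3).1 h1
    have h5 : p ∣ n * P := by exact_mod_cast h4
    rcases hp.dvd_mul.1 h5 with h6 | h6
    · exact h p hp h2 h3 h6
    · rw [hP, hp.prime.dvd_finsetProd_iff] at h6
      obtain ⟨q, hq, hpq⟩ := h6
      rw [Finset.mem_filter] at hq
      have h7 : p = q := (Nat.prime_dvd_prime_iff_eq hp (Nat.prime_of_mem_primeFactors hq.1)).1 hpq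
      rw [← h7] at hq
      exact hq.2 h3
  · have h4 : p ∣ P := Finset.dvd_prod_of_mem (fun p => p) (Finset.mem_filter.2
      ⟨Nat.mem_primeFactors.2 ⟨hp, h2, hN.ne'⟩, h3⟩)
    have h5 : (p : ℤ) ∣ (n : ℤ) * P := Dvd.dvd.mul_left (by exact_mod_cast h4) _
    exact h3 ((dvd_add_left h5).1 h1)

/-- constant terms of new forms: odd, in the class `c` mod 3, coprime to `s` -/
theorem exists_E (a : ℤ) (d s : ℕ) (hs : 0 < s) (had : Int.gcd a d = 1) (c : ℤ) (hc : c = 1 ∨ c = 2)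
    (h3 : 3 ∣ d → a % 3 = c) : ∃ E : ℤ, (a + d * E) % 3 = c ∧ ¬ (2 : ℤ) ∣ a + d * E ∧ Int.gcd (a + d * E) s = 1 := by
  -- a small `E`
  obtain ⟨E0, h1, h2⟩ : ∃ E0 : ℤ, (a + d * E0) % 3 = c ∧ ¬ (2 : ℤ) ∣ a + d * E0 := by
    have hodd : ∃ e : ℤ, ¬ (2 : ℤ) ∣ a + d * e := by
      by_cases hd : (2 : ℤ) ∣ d
      · refine ⟨0, fun h => ?_⟩
        have h4 : (2 : ℤ) ∣ a := by simpa using h
        have h5 : (2 : ℤ) ∣ (Int.gcd a d : ℤ) := Int.dvd_coe_gcd h4 hd
        rw [had] at h5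
        norm_num at h5
      · by_cases ha : (2 : ℤ) ∣ a
        · exact ⟨1, by omega⟩
        · exact ⟨0, by simpa using ha⟩
    obtain ⟨e, he⟩ := hodd
    by_cases hd : 3 ∣ d
    · refine ⟨e, ?_, he⟩
      have h4 : (3 : ℤ) ∣ (d : ℤ) * e := Dvd.dvd.mul_right (by exact_mod_cast hd) _
      have h5 := h3 hd
      omega
    · have hd3 : (d : ℤ) % 3 = 1 ∨ (d : ℤ) % 3 = 2 := by omega
      have hb : ∀ b : ℤ, ∃ i : ℤ, (b + d * (2 * i)) % 3 = c := by
        intro b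
        have key : ∀ i : ℤ, (b + (d : ℤ) * (2 * i)) % 3 = (b % 3 + (d : ℤ) % 3 * (2 * i)) % 3 := by
          intro i
          have h6 := Int.emod_add_mul_ediv b 3
          have h7 := Int.emod_add_mul_ediv (d : ℤ) 3
          have h8 : b + (d : ℤ) * (2 * i) = (b % 3 + (d : ℤ) % 3 * (2 * i)) + 3 * (b / 3 + (d : ℤ) / 3 * (2 * i)) := by
            linear_combination -h6 - (2 * i) * h7
          rw [h8, Int.add_mul_emod_self_left]
        have hb3 : b % 3 = 0 ∨ b % 3 = 1 ∨ b % 3 = 2 := by omega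
        rcases hd3 with hd3 | hd3 <;> rcases hb3 with hb3 | hb3 | hb3 <;> rcases hc with hc | hc <;>
          first
            | (refine ⟨0, ?_⟩; rw [key, hd3, hb3, hc]; rfl)
            | (refine ⟨1, ?_⟩; rw [key, hd3, hb3, hc]; rfl)
            | (refine ⟨2, ?_⟩; rw [key, hd3, hb3, hc]; rfl)
      obtain ⟨i, hi⟩ := hb (a + d * e)
      refine ⟨e + 2 * i, ?_, ?_⟩
      · rw [← hi]
        congr 1
        ring
      · intro h4
        apply he
        have h5 : a + (d : ℤ) * (e + 2 * i) = a + d * e + 2 * (d * i) := by ring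
        rw [h5] at h4
        omega
  set b : ℤ := a + d * E0 with hb
  have hbd : Int.gcd b d = 1 := by
    rw [← Int.isCoprime_iff_gcd_eq_one] at had ⊢
    rw [hb]
    exact had.add_mul_left_left _
  obtain ⟨k, hk⟩ := exists_cop b (6 * d) s hs (by
    intro p hp _ hpb hp6
    have h4 : p ∣ 6 ∨ p ∣ d := hp.dvd_mul.1 hp6
    rcases h4 with h4 | h4
    · have h5 : p = 2 ∨ p = 3 := by
        have h6 : p ≤ 6 := Nat.le_of_dvd (by norm_num) h4
        have := hp.two_le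
        interval_cases p
        · exact Or.inl rfl
        · exact Or.inr rfl
        · exact absurd hp (by norm_num)
        · omega
        · exact absurd hp (by norm_num)
      rcases h5 with rfl | rfl
      · exact h2 (by exact_mod_cast hpb)
      · have h6 : (3 : ℤ) ∣ b := by exact_mod_cast hpb
        rcases hc with hc | hc <;> omega
    · have h5 : (p : ℤ) ∣ (Int.gcd b d : ℤ) := Int.dvd_coe_gcd hpb (by exact_mod_cast h4)
      rw [hbd] at h5
      have h6 : p ∣ 1 := by exact_mod_cast h5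
      exact hp.one_lt.ne' (Nat.dvd_one.1 h6))
  have e1 : a + (d : ℤ) * (E0 + 6 * k) = b + ((6 * d : ℕ) : ℤ) * k := by
    rw [hb]
    push_cast
    ring
  refine ⟨E0 + 6 * k, ?_, ?_, ?_⟩
  · rw [e1]
    push_cast
    have : b + 6 * (d : ℤ) * k = b + 3 * (2 * (d * k)) := by ring
    rw [this]
    omega
  · rw [e1]
    push_cast
    have : b + 6 * (d : ℤ) * k = b + 2 * (3 * (d * k)) := by ring
    rw [this]
    omega
  · rw [e1]
    exact hk

end Pool.Agent.SL
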