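import Pool.Agent.SLT.Defs

/-! SLOPES, one third (helper64): four bad groups contradict the four group theorem -/

set_option autoImplicit false

namespace Pool.Agent.SL

open Finset Filter Topology

/-- infinitely often both prime -/
private theorem fin_pair (s1 h1 s2 h2 d : ℕ) (hd : s2 = d * s1) (hs1 : 0 < s1) (hd0 : 0 < d)
    (hinf : ∀ x : ℕ, ∃ n ≥ x, (s1 * n + h1).Prime ∧ (s2 * n + h2).Prime) : GoodP ((h2 : ℤ) - d * h1) d := by
  refine GZ.good hd0 ?_
  unfold GZ
  refine Set.infinite_of_forall_exists_gt fun N => ?_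
  obtain ⟨n, hn, hp1, hp2⟩ := hinf (N + 1)
  refine ⟨s1 * n + h1, ⟨hp1, s2 * n + h2, hp2, ?_⟩, ?_⟩
  · rw [hd]
    push_cast
    ring
  · have : n ≤ s1 * n := Nat.le_mul_of_pos_left n hs1
    omega

/-- a form that is not a multiple of `p` excludes at most one class -/
private theorem fin_one (p : ℕ) (hp : p.Prime) (s h : ℕ) (hnd : p ∣ s → ¬ p ∣ h) :
    ((range p).filter fun n => p ∣ s * n + h).card ≤ 1 := by
  rw [card_le_one]
  intro a ha b hb
  rw [mem_filter, mem_range] at ha hb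
  by_cases hps : p ∣ s
  · exact absurd ((Nat.dvd_add_right (hps.mul_right _)).1 ha.2) (hnd hps)
  · have h1 : s * a + h ≡ s * b + h [MOD p] :=
      ((Nat.modEq_zero_iff_dvd.mpr ha.2).trans (Nat.modEq_zero_iff_dvd.mpr hb.2).symm)
    have h2 : s * a ≡ s * b [MOD p] := Nat.ModEq.add_right_cancel' _ h1
    have hc : Nat.gcd p s = 1 := (Nat.Prime.coprime_iff_not_dvd hp).mpr hps
    have h3 : a ≡ b [MOD p] := Nat.ModEq.cancel_left_of_coprime hc h2
    exact Nat.ModEq.eq_of_lt_of_lt h3 ha.1 hb.1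

/-- few forms exclude few classes -/
private theorem fin_few {ι : Type} (W : Finset ι) (p : ℕ) (hp : p.Prime) (s h : ι → ℕ)
    (hnd : ∀ i ∈ W, p ∣ s i → ¬ p ∣ h i) (hW : W.card < p) : ∃ n : ℕ, ∀ i ∈ W, ¬ p ∣ s i * n + h i := by
  classical
  have hU : (W.biUnion fun i => (range p).filter fun n => p ∣ s i * n + h i).card < (range p).card := by
    refine lt_of_le_of_lt card_biUnion_le ?_
    refine lt_of_le_of_lt (sum_le_card_nsmul _ _ 1 fun i hi => fin_one p hp _ _ (hnd i hi)) ?_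
    rw [card_range, smul_eq_mul, mul_one]
    exact hW
  obtain ⟨n, hn, hn2⟩ := exists_mem_notMem_of_card_lt_card hU
  refine ⟨n, fun i hi hd => hn2 ?_⟩
  rw [mem_biUnion]
  exact ⟨i, hi, mem_filter.2 ⟨hn, hd⟩⟩

/-- Proof: `4 k'` forms `x.1 n + (x.2 + x.1 N0)`, `k'` from each group.  Not proportional: in a group by assumption, in
different groups by `Ext` (`v.2 ≠ d x.2`).  Admissible: `p ≤ 4 k'` divides `Q`; `p = 2, 3`: `n ≡ -N0`; `5 ≤ p ≤ 4 k'`: each
group is one form mod `p`, and four forms with `p ∤ (s, h)` exclude at most four classes; `p > 4 k'`: at most `4 k'` classes.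
Two forms of different groups `j < i` prime together for arbitrarily large `n` contradict `BadP` (compare `pair_good`,
`one_third` in SLD/Dens.lean). -/
theorem fin_groups {k' : ℕ} (hk' : 1 ≤ k') (hD : DHLG 4 (4 * k')) (S : Set ℕ) (hpos : ∀ m ∈ S, 0 < m) (Q : ℕ)
    (hQ : 0 < Q) (hQp : ∀ p ≤ 4 * k', p.Prime → p ∣ Q) (L : ℕ → ℕ × ℤ) (h : Grp S Q L 4 k') : False := by
  classical
  obtain ⟨A, hA⟩ := h
  -- `k'` elements of each group
  have hsub : ∀ i : Fin 4, ∃ f : Fin k' → ℕ × ℤ, Function.Injective f ∧ ∀ l, f l ∈ A i := by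
    intro i
    obtain ⟨h1, _⟩ := hA i i.2
    obtain ⟨B, hB, hBc⟩ := Finset.exists_subset_card_eq h1
    have e := (Finset.equivFinOfCardEq hBc).symm
    exact ⟨fun l => (e l : ℕ × ℤ), Subtype.val_injective.comp e.injective, fun l => hB (e l).2⟩
  choose f hfi hfA using hsub
  set e : Fin (4 * k') ≃ Fin 4 × Fin k' := finProdFinEquiv.symm with he
  set v : Fin (4 * k') → ℕ × ℤ := fun i => f (e i).1 (e i).2 with hv
  have hvA : ∀ i, v i ∈ A (e i).1 := fun i => hfA _ _
  have hok : ∀ i, OkV S (v i) := fun i => ((hA (e i).1 (e i).1.2).2.1 (v i) (hvA i)).1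
  have hs0 : ∀ i, 0 < (v i).1 := fun i => hpos _ (hok i).1
  -- natural numbers
  set N0 : ℕ := ∑ i, ((v i).2).natAbs with hN0
  have hN0i : ∀ i, ((v i).2).natAbs ≤ N0 := fun i =>
    Finset.single_le_sum (f := fun i => ((v i).2).natAbs) (fun _ _ => Nat.zero_le _) (Finset.mem_univ i)
  set h' : Fin (4 * k') → ℕ := fun i => ((v i).2 + (v i).1 * N0).toNat with hh'
  have hcast : ∀ i, ((h' i : ℕ) : ℤ) = (v i).2 + (v i).1 * N0 := by
    intro i
    rw [hh']
    simp only
    apply Int.toNat_of_nonneg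
    have h1 := hN0i i
    have h2 := hs0 i
    have h3 : (N0 : ℤ) ≤ (v i).1 * N0 := by
      have : N0 ≤ (v i).1 * N0 := Nat.le_mul_of_pos_left N0 h2
      exact_mod_cast this
    have h4 : (((v i).2).natAbs : ℤ) ≤ N0 := by exact_mod_cast h1
    have h5 : -(((v i).2).natAbs : ℤ) ≤ (v i).2 := by
      rw [Int.natCast_natAbs]
      exact neg_abs_le _
    linarith
  have hnd : ∀ i, ∀ p : ℕ, p.Prime → p ∣ (v i).1 → ¬ p ∣ h' i := by
    intro i p hp h1 h2
    have h3 : (p : ℤ) ∣ (v i).2 := by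
      have h4 : (p : ℤ) ∣ (h' i : ℤ) := by exact_mod_cast h2
      rw [hcast i] at h4
      have h5 : (p : ℤ) ∣ (v i).1 * N0 := Dvd.dvd.mul_right (by exact_mod_cast h1) _
      exact (Int.dvd_add_left h5).1 h4
    have h4 : (p : ℤ) ∣ (Int.gcd (v i).2 (v i).1 : ℤ) := Int.dvd_coe_gcd h3 (by exact_mod_cast h1)
    rw [(hok i).2.1] at h4
    have h5 : p ∣ 1 := by exact_mod_cast h4
    exact hp.one_lt.ne' (Nat.dvd_one.1 h5)
  -- pairs of different groups
  have hext : ∀ i j, (e i).1 < (e j).1 → Ext (v i) (v j) ∧ BadP (v i) (v j) := by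
    intro i j hij
    exact (hA (e j).1 (e j).1.2).2.2.2.2 (e i).1 hij (v i) (hvA i) (v j) (hvA j)
  have hdet0 : ∀ i j, (v i).1 * h' j = (v j).1 * h' i → ((v i).1 : ℤ) * (v j).2 = (v j).1 * (v i).2 := by
    intro i j h1
    have h2 : (((v i).1 * h' j : ℕ) : ℤ) = (((v j).1 * h' i : ℕ) : ℤ) := by rw [h1]
    push_cast at h2
    rw [hcast i, hcast j] at h2
    linarith
  have hdet1 : ∀ i j, (e i).1 < (e j).1 → ((v i).1 : ℤ) * (v j).2 ≠ (v j).1 * (v i).2 := by
    intro i j hij h1
    obtain ⟨⟨d, hd1, _, hd3⟩, _⟩ := hext i j hij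
    apply hd3
    have h2 : ((v i).1 : ℤ) ≠ 0 := by exact_mod_cast (hs0 i).ne'
    apply mul_left_cancel₀ h2
    rw [h1, hd1]
    push_cast
    ring
  have hdet : ∀ i j, i ≠ j → (v i).1 * h' j ≠ (v j).1 * h' i := by
    intro i j hij h1
    have h2 := hdet0 i j h1
    rcases lt_trichotomy (e i).1 (e j).1 with h3 | h3 | h3
    · exact hdet1 i j h3 h2
    · have h4 : v i ≠ v j := by
        intro h5
        apply hij
        apply e.injective
        have h6 : f (e i).1 (e i).2 = f (e i).1 (e j).2 := by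
          have h7 : f (e i).1 (e i).2 = f (e j).1 (e j).2 := h5
          rw [h7, h3]
        exact Prod.ext h3 (hfi _ h6)
      have h5 : v j ∈ A (e i).1 := by
        have := hvA j
        rw [← h3] at this
        exact this
      exact (hA (e i).1 (e i).1.2).2.2.2.1 (v i) (hvA i) (v j) h5 h4 h2
    · exact hdet1 j i h3 h2.symm
  -- bad pairs
  have hbadp : ∀ i j, (e i).1 < (e j).1 →
      ¬ ∀ x : ℕ, ∃ n ≥ x, ((v i).1 * n + h' i).Prime ∧ ((v j).1 * n + h' j).Prime := by
    intro i j hij hc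
    obtain ⟨⟨d, hd1, _, _⟩, hbad⟩ := hext i j hij
    have hd : (v j).1 / (v i).1 = d := by rw [hd1, Nat.mul_div_cancel _ (hs0 i)]
    have hd0 : 0 < d := by
      rcases Nat.eq_zero_or_pos d with h0 | h0
      · have := hs0 j
        rw [hd1, h0] at this
        omega
      · exact h0
    have h3 := fin_pair (v i).1 (h' i) (v j).1 (h' j) d hd1 (hs0 i) hd0 hc
    apply hbad
    rw [hd]
    have h4 : (h' j : ℤ) - d * h' i = (v j).2 - d * (v i).2 := by
      rw [hcast i, hcast j, hd1]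
      push_cast
      ring
    rw [h4] at h3
    exact h3
  have hX : ∀ i j : Fin (4 * k'), ∃ X : ℕ, ∀ n ≥ X, (e i).1 ≠ (e j).1 →
      ¬ (((v i).1 * n + h' i).Prime ∧ ((v j).1 * n + h' j).Prime) := by
    intro i j
    by_contra hc
    push Not at hc
    have hne : (e i).1 ≠ (e j).1 := by
      obtain ⟨n, _, h1, _⟩ := hc 0
      exact h1
    rcases lt_or_gt_of_ne hne with hlt | hlt
    · refine hbadp i j hlt fun x => ?_
      obtain ⟨n, hn, _, h1, h2⟩ := hc x
      exact ⟨n, hn, h1, h2⟩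
    · refine hbadp j i hlt fun x => ?_
      obtain ⟨n, hn, _, h1, h2⟩ := hc x
      exact ⟨n, hn, h2, h1⟩
  choose X hX using hX
  have hfin := hD (fun i => (v i).1) h' (fun i => (e i).1) ?_ hs0 hdet ?_ (∑ i, ∑ j, X i j)
  · obtain ⟨n, hn, i, j, hij, hi, hj⟩ := hfin
    refine hX i j n (le_trans ?_ hn) hij ⟨hi, hj⟩
    calc X i j ≤ ∑ j, X i j := Finset.single_le_sum (f := fun j => X i j) (fun _ _ => Nat.zero_le _) (Finset.mem_univ j)
      _ ≤ _ := Finset.single_le_sum (f := fun i => ∑ j, X i j) (fun _ _ => Nat.zero_le _) (Finset.mem_univ i)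
  · intro g
    have h2 : (univ.filter fun i : Fin (4 * k') => (e i).1 = g).card = k' := by
      rw [← Finset.card_map e.toEmbedding]
      have h3 : (univ.filter fun i : Fin (4 * k') => (e i).1 = g).map e.toEmbedding =
          ({g} : Finset (Fin 4)) ×ˢ (univ : Finset (Fin k')) := by
        ext y
        simp only [Finset.mem_map, Finset.mem_filter, Finset.mem_univ, true_and, Equiv.coe_toEmbedding,
          Finset.mem_product, Finset.mem_singleton, and_true]
        constructor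
        · rintro ⟨a, ha, rfl⟩
          exact ha
        · intro hy
          exact ⟨e.symm y, by simpa using hy, by simp⟩
      rw [h3, Finset.card_product, Finset.card_singleton, Finset.card_univ, Fintype.card_fin, one_mul]
    rw [h2]
  · -- admissible
    intro p hp
    by_cases hp3 : p = 2 ∨ p = 3
    · refine ⟨(p - 1) * N0, fun i hd => ?_⟩
      have h1 : (((v i).1 * ((p - 1) * N0) + h' i : ℕ) : ℤ) = p * ((v i).1 * N0) + (v i).2 := by
        push_cast [Nat.cast_sub hp.one_lt.le]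
        rw [hcast i]
        ring
      have h2 : (p : ℤ) ∣ p * ((v i).1 * N0) + (v i).2 := by
        rw [← h1]
        exact_mod_cast hd
      have h3 : (p : ℤ) ∣ (v i).2 := (Int.dvd_add_right (dvd_mul_right _ _)).1 h2
      rcases hp3 with h4 | h4
      · rw [h4] at h3
        exact (hok i).2.2.1 h3
      · rw [h4] at h3
        exact (hok i).2.2.2 h3
    push Not at hp3
    have hp5 : 5 ≤ p := by
      have h2 := hp.two_le
      have h4 : p ≠ 4 := by
        rintro rfl
        revert hp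
        decide
      omega
    by_cases hpk : p ≤ 4 * k'
    · have hpQ := hQp p hpk hp
      set r : Fin 4 → Fin (4 * k') := fun g => e.symm (g, ⟨0, hk'⟩) with hr
      have hrg : ∀ g, (e (r g)).1 = g := by
        intro g
        rw [hr]
        simp
      obtain ⟨n, hn⟩ := fin_few (univ : Finset (Fin 4)) p hp (fun g => (v (r g)).1) (fun g => h' (r g))
        (fun g _ => hnd _ p hp) (by rw [Finset.card_univ, Fintype.card_fin]; omega)
      refine ⟨n, fun i hd => hn (e i).1 (Finset.mem_univ _) ?_⟩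
      have h1 : v (r (e i).1) ∈ A (e i).1 := by
        have := hvA (r (e i).1)
        rw [hrg] at this
        exact this
      obtain ⟨h2, h3⟩ := (hA (e i).1 (e i).1.2).2.2.1 (v i) (hvA i) (v (r (e i).1)) h1
      have hpQ' : (p : ℤ) ∣ (Q : ℤ) := by exact_mod_cast hpQ
      have h4 : ((v i).1 : ℤ) ≡ (v (r (e i).1)).1 [ZMOD p] := by
        have h5 : (v i).1 ≡ (v (r (e i).1)).1 [MOD Q] := h2
        exact Int.natCast_modEq_iff.2 (h5.of_dvd hpQ)
      have h5 : (v i).2 ≡ (v (r (e i).1)).2 [ZMOD p] := by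
        have h6 : (v i).2 ≡ (v (r (e i).1)).2 [ZMOD Q] := h3
        exact h6.of_dvd hpQ'
      have h6 : (((v i).1 * n + h' i : ℕ) : ℤ) ≡ (((v (r (e i).1)).1 * n + h' (r (e i).1) : ℕ) : ℤ) [ZMOD p] := by
        push_cast
        rw [hcast, hcast]
        exact (h4.mul_right _).add (h5.add (h4.mul_right _))
      have h7 : (p : ℤ) ∣ (((v i).1 * n + h' i : ℕ) : ℤ) := by exact_mod_cast hd
      have h8 : (p : ℤ) ∣ (((v (r (e i).1)).1 * n + h' (r (e i).1) : ℕ) : ℤ) := h6.dvd_iff.1 h7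
      show p ∣ (v (r (e i).1)).1 * n + h' (r (e i).1)
      exact_mod_cast h8
    · push Not at hpk
      obtain ⟨n, hn⟩ := fin_few (univ : Finset (Fin (4 * k'))) p hp (fun i => (v i).1) h'
        (fun i _ => hnd _ p hp) (by rw [Finset.card_univ, Fintype.card_fin]; omega)
      exact ⟨n, fun i => hn i (Finset.mem_univ _)⟩

end Pool.Agent.SL
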