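import Pool.Agent.SLT.Pat

/-! SLOPES, one third (helper64): building the groups -/

set_option autoImplicit false

namespace Pool.Agent.SL

open Finset Filter Topology

private theorem ext_irrefl {S : Set ℕ} (hpos : ∀ m ∈ S, 0 < m) {x : ℕ × ℤ} (hx : OkV S x) : ¬ Ext x x := by
  rintro ⟨d, h1, -, h2⟩
  have h3 := hpos _ hx.1
  have h4 : d = 1 := Nat.eq_of_mul_eq_mul_right h3 (by rw [one_mul]; exact h1.symm)
  subst h4
  simp at h2

private theorem ext_nprop {x v : ℕ × ℤ} (hx : 0 < x.1) (h : Ext x v) : (x.1 : ℤ) * v.2 ≠ v.1 * x.2 := by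
  obtain ⟨d, h1, -, h2⟩ := h
  intro h3
  apply h2
  rw [h1] at h3
  push_cast at h3
  have hx' : (x.1 : ℤ) ≠ 0 := by exact_mod_cast hx.ne'
  exact mul_left_cancel₀ hx' (by linarith)

open Classical in
private theorem weight_sum (A : ℕ → Finset (ℕ × ℤ)) (m : ℕ) (W : Finset (ℕ × ℤ)) (hW : ∀ j < m, A j ⊆ W)
    (f : ℕ × ℤ → ℝ) :
    ∑ x ∈ W, (∑ j ∈ range m, if x ∈ A j then (1 : ℝ) / (A j).card else 0) * f x
      = ∑ j ∈ range m, (1 : ℝ) / (A j).card * ∑ x ∈ A j, f x := by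
  simp_rw [Finset.sum_mul]
  rw [Finset.sum_comm]
  refine Finset.sum_congr rfl fun j hj => ?_
  rw [Finset.mul_sum]
  have h1 : ∀ x ∈ W, (if x ∈ A j then (1 : ℝ) / (A j).card else 0) * f x
      = if x ∈ A j then (1 : ℝ) / (A j).card * f x else 0 := by
    intro x _
    split_ifs <;> simp
  rw [Finset.sum_congr rfl h1, ← Finset.sum_filter]
  have h2 : W.filter (fun x => x ∈ A j) = A j := by
    ext x
    simp only [Finset.mem_filter]
    exact ⟨fun h => h.2, fun h => ⟨hW j (Finset.mem_range.1 hj) h, h⟩⟩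
  rw [h2]

open Classical in
/-- one new vertex, bad with many members of every old group -/
private theorem one_new (S : Set ℕ) (φ : ℕ → ℤ → ℝ) (L : ℕ → ℕ × ℤ) (m : ℕ) (κ : ℝ) (hκ : 0 < κ)
    (hφ : m = 0 ∨ (m : ℝ) - 1 + κ ≤ ∑ j ∈ range m, tyd φ (L m) (L j)) (hnew : NewV S φ (L m)) (N N' : ℕ)
    (hN : (N : ℝ) ≤ κ / 2 * N') (hN' : 1 ≤ N') (A : ℕ → Finset (ℕ × ℤ))
    (hA : ∀ i < m, N' ≤ (A i).card ∧ ∀ x ∈ A i, OkV S x ∧ x.1 % 3 = (L i).1 ∧ x.2 % 3 = (L i).2)
    (W : Finset (ℕ × ℤ)) (hW : ∀ j < m, A j ⊆ W) (hWo : ∀ x ∈ W, OkV S x) :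
    ∃ v : ℕ × ℤ, OkV S v ∧ v.1 % 3 = (L m).1 ∧ v.2 % 3 = (L m).2 ∧ (∀ x ∈ W, Ext x v) ∧
      ∀ j < m, N ≤ ((A j).filter fun x => BadP x v).card := by
  set w : ℕ × ℤ → ℝ := fun x => ∑ j ∈ range m, if x ∈ A j then (1 : ℝ) / (A j).card else 0 with hw
  have hw0 : ∀ x, 0 ≤ w x := by
    intro x
    refine Finset.sum_nonneg fun j _ => ?_
    split_ifs
    · positivity
    · exact le_rfl
  obtain ⟨v, hv, hv1, hv2, hvE, hvS⟩ := hnew W hWo w hw0 (κ / 2) (by linarith)
  refine ⟨v, hv, hv1, hv2, hvE, ?_⟩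
  intro j0 hj0
  have e1 : ∑ x ∈ W, w x * tyd φ (L m) x = ∑ j ∈ range m, tyd φ (L m) (L j) := by
    rw [hw, weight_sum A m W hW]
    refine Finset.sum_congr rfl fun j hj => ?_
    have hj := Finset.mem_range.1 hj
    have h1 : ∀ x ∈ A j, tyd φ (L m) x = tyd φ (L m) (L j) := by
      intro x hx
      have h2 := ((hA j hj).2 x hx).2
      refine tyd_congr φ (L m) x (L j) ?_ ?_
      · rw [← h2.1, Nat.mod_mod]
      · rw [← h2.2, Int.emod_emod_of_dvd _ (dvd_refl 3)]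
    rw [Finset.sum_congr rfl h1, Finset.sum_const, nsmul_eq_mul]
    have h3 : (0 : ℝ) < (A j).card := by
      have := (hA j hj).1
      exact_mod_cast (by omega : 0 < (A j).card)
    field_simp
  have e2 : ∑ x ∈ W, (if BadP x v then w x else 0)
      = ∑ j ∈ range m, (((A j).filter fun x => BadP x v).card : ℝ) / (A j).card := by
    have h1 : ∀ x ∈ W, (if BadP x v then w x else 0) = w x * (if BadP x v then (1 : ℝ) else 0) := by
      intro x _
      split_ifs <;> simp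
    rw [Finset.sum_congr rfl h1, hw, weight_sum A m W hW]
    refine Finset.sum_congr rfl fun j hj => ?_
    rw [Finset.sum_boole]
    ring
  have hvS' : ∑ x ∈ W, w x * tyd φ (L m) x ≤ ∑ x ∈ W, (if BadP x v then w x else 0) + κ / 2 := by
    convert hvS using 3
  rw [e1, e2] at hvS'
  have hm : m ≠ 0 := by omega
  have hφ' := hφ.resolve_left hm
  have hle : ∀ j ∈ range m, (((A j).filter fun x => BadP x v).card : ℝ) / (A j).card ≤ 1 := by
    intro j _
    refine div_le_one_of_le₀ ?_ (Nat.cast_nonneg _)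
    exact_mod_cast Finset.card_filter_le _ _
  have hsum : ∑ j ∈ (range m).erase j0, (((A j).filter fun x => BadP x v).card : ℝ) / (A j).card
      ≤ (m : ℝ) - 1 := by
    have h1 := Finset.sum_le_card_nsmul ((range m).erase j0)
      (fun j => (((A j).filter fun x => BadP x v).card : ℝ) / (A j).card) 1
      (fun j hj => hle j (Finset.mem_of_mem_erase hj))
    rw [Finset.card_erase_of_mem (Finset.mem_range.2 hj0), Finset.card_range, nsmul_eq_mul, mul_one,
      Nat.cast_sub (by omega)] at h1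
    simpa using h1
  have hsplit := Finset.add_sum_erase (range m)
    (fun j => (((A j).filter fun x => BadP x v).card : ℝ) / (A j).card) (Finset.mem_range.2 hj0)
  have hk : κ / 2 ≤ (((A j0).filter fun x => BadP x v).card : ℝ) / (A j0).card := by linarith
  have hc : (0 : ℝ) < (A j0).card := by
    have := (hA j0 hj0).1
    exact_mod_cast (by omega : 0 < (A j0).card)
  rw [le_div_iff₀ hc] at hk
  have h5 : (N' : ℝ) ≤ (A j0).card := by exact_mod_cast (hA j0 hj0).1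
  have h6 : (N : ℝ) ≤ (((A j0).filter fun x => BadP x v).card : ℝ) := by
    calc (N : ℝ) ≤ κ / 2 * N' := hN
      _ ≤ κ / 2 * (A j0).card := mul_le_mul_of_nonneg_left h5 (by linarith)
      _ ≤ _ := hk
  exact_mod_cast h6

open Classical in
/-- Proof: let `κ = ∑ tyd φ (L m) (L j) - (m - 1) > 0` (`κ = 1` for `m = 0`), take groups `A j` of at least
`N' ≥ 2 N / κ`, `N' ≥ 1`, members.  With `W` = all old vertices and the new ones found so far, weights `1 / (A j).card` on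
`A j`, `j < m`, `δ = κ / 2`: infinitely many new vertices `v` of type `L m`, each extending all before, with
`∑ j < m, #{x ∈ A j : BadP x v} / (A j).card ≥ m - 1 + κ / 2`, so `#{x ∈ A j : BadP x v} ≥ (κ / 2) (A j).card ≥ N`.
Pigeonhole over the set of all old `x` bad with `v` and the class of `v` mod `Q`: `N` of them with the same pattern.
(`Ext x v → Ext`-pairs are not proportional.) -/
theorem grp_step (S : Set ℕ) (hpos : ∀ m ∈ S, 0 < m) (Q : ℕ) (hQ : 0 < Q) (φ : ℕ → ℤ → ℝ) (L : ℕ → ℕ × ℤ) (m : ℕ)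
    (hφ : m = 0 ∨ (m : ℝ) - 1 < ∑ j ∈ range m, tyd φ (L m) (L j)) (hnew : NewV S φ (L m))
    (ih : ∀ N, Grp S Q L m N) (N : ℕ) : Grp S Q L (m + 1) N := by
  obtain ⟨κ, hκ, hφκ⟩ : ∃ κ : ℝ, 0 < κ ∧ (m = 0 ∨ (m : ℝ) - 1 + κ ≤ ∑ j ∈ range m, tyd φ (L m) (L j)) := by
    rcases hφ with h | h
    · exact ⟨1, one_pos, Or.inl h⟩
    · exact ⟨∑ j ∈ range m, tyd φ (L m) (L j) - ((m : ℝ) - 1), by linarith, Or.inr (by linarith)⟩
  obtain ⟨N0, hN0⟩ := exists_nat_ge (2 * (N : ℝ) / κ)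
  set N' := N0 + 1 with hN'
  have hNN : (N : ℝ) ≤ κ / 2 * N' := by
    rw [div_le_iff₀ hκ] at hN0
    rw [hN']
    push_cast
    nlinarith
  obtain ⟨A, hA⟩ := ih N'
  set W0 : Finset (ℕ × ℤ) := (range m).biUnion A with hW0
  have hAW0 : ∀ j < m, A j ⊆ W0 := fun j hj => Finset.subset_biUnion_of_mem A (Finset.mem_range.2 hj)
  have hW0o : ∀ x ∈ W0, OkV S x := by
    intro x hx
    obtain ⟨j, hj, hx⟩ := Finset.mem_biUnion.1 hx
    exact ((hA j (Finset.mem_range.1 hj)).2.1 x hx).1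
  have hstep : ∀ W : Finset (ℕ × ℤ), ∃ v : ℕ × ℤ, (W0 ⊆ W ∧ ∀ x ∈ W, OkV S x) →
      OkV S v ∧ v.1 % 3 = (L m).1 ∧ v.2 % 3 = (L m).2 ∧ (∀ x ∈ W, Ext x v) ∧
      ∀ j < m, N ≤ ((A j).filter fun x => BadP x v).card := by
    intro W
    by_cases h : W0 ⊆ W ∧ ∀ x ∈ W, OkV S x
    · obtain ⟨v, hv⟩ := one_new S φ L m κ hκ hφκ hnew N N' hNN (by omega) A
        (fun i hi => ⟨(hA i hi).1, (hA i hi).2.1⟩) W (fun j hj => (hAW0 j hj).trans h.1) h.2
      exact ⟨v, fun _ => hv⟩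
    · exact ⟨(0, 0), fun h2 => absurd h2 h⟩
  choose g hg using hstep
  set Wk : ℕ → Finset (ℕ × ℤ) := fun k => Nat.rec W0 (fun _ W => insert (g W) W) k with hWk
  have hWs : ∀ k, Wk (k + 1) = insert (g (Wk k)) (Wk k) := fun k => rfl
  have hgood : ∀ k, W0 ⊆ Wk k ∧ ∀ x ∈ Wk k, OkV S x := by
    intro k
    induction k with
    | zero => exact ⟨Finset.Subset.refl _, hW0o⟩
    | succ k ihk =>
      rw [hWs]
      refine ⟨ihk.1.trans (Finset.subset_insert _ _), ?_⟩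
      intro x hx
      rcases Finset.mem_insert.1 hx with h | h
      · rw [h]
        exact (hg _ ihk).1
      · exact ihk.2 x h
  have hmono : Monotone Wk := by
    refine monotone_nat_of_le_succ fun k => ?_
    rw [hWs]
    exact Finset.subset_insert _ _
  set v : ℕ → ℕ × ℤ := fun k => g (Wk k) with hv
  have hvs : ∀ k, OkV S (v k) ∧ (v k).1 % 3 = (L m).1 ∧ (v k).2 % 3 = (L m).2 ∧ (∀ x ∈ Wk k, Ext x (v k)) ∧
      ∀ j < m, N ≤ ((A j).filter fun x => BadP x (v k)).card := fun k => hg _ (hgood k)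
  have hvE : ∀ a b, a < b → Ext (v a) (v b) := by
    intro a b hab
    refine (hvs b).2.2.2.1 _ (hmono (Nat.succ_le_of_lt hab) ?_)
    rw [Nat.succ_eq_add_one, hWs]
    exact Finset.mem_insert_self _ _
  have hvinj : Function.Injective v := by
    intro a b hab
    by_contra hne
    rcases lt_or_gt_of_ne hne with h | h
    · have h1 := hvE a b h
      rw [hab] at h1
      exact ext_irrefl hpos (hvs b).1 h1
    · have h1 := hvE b a h
      rw [hab] at h1
      exact ext_irrefl hpos (hvs b).1 h1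
  have : NeZero Q := ⟨hQ.ne'⟩
  set pat : ℕ → {T // T ∈ W0.powerset} × ZMod Q × ZMod Q := fun k =>
    (⟨W0.filter (fun x => BadP x (v k)), Finset.mem_powerset.2 (Finset.filter_subset _ _)⟩,
      ((v k).1 : ZMod Q), ((v k).2 : ZMod Q)) with hpat
  obtain ⟨p, hp⟩ := Finite.exists_infinite_fiber pat
  have hp' : (pat ⁻¹' {p}).Infinite := Set.infinite_coe_iff.1 hp
  obtain ⟨K, hK, hKc⟩ := hp'.exists_subset_card_eq N
  have hKp : ∀ k ∈ K, pat k = p := fun k hk => hK hk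
  have hTm : ∀ k ∈ K, W0.filter (fun x => BadP x (v k)) = p.1.1 := by
    intro k hk
    have h := hKp k hk
    rw [← h]
  have hQ1 : ∀ k ∈ K, ∀ k' ∈ K, (v k).1 % Q = (v k').1 % Q ∧ (v k).2 % (Q : ℤ) = (v k').2 % (Q : ℤ) := by
    intro k hk k' hk'
    have h := (hKp k hk).trans (hKp k' hk').symm
    have h2 := congrArg (fun z => z.2.1) h
    have h3 := congrArg (fun z => z.2.2) h
    exact ⟨(ZMod.natCast_eq_natCast_iff' _ _ _).1 h2, (ZMod.intCast_eq_intCast_iff' _ _ _).1 h3⟩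
  by_cases hN0' : N = 0
  · subst hN0'
    refine ⟨fun _ => ∅, fun i hi => ⟨by simp, by simp, by simp, by simp, by simp⟩⟩
  have hKne : K.Nonempty := by
    rw [← Finset.card_pos, hKc]
    omega
  obtain ⟨k0, hk0⟩ := hKne
  refine ⟨fun i => if i < m then (A i).filter (fun x => x ∈ p.1.1) else K.image v, ?_⟩
  have hmemT : ∀ k ∈ K, ∀ x ∈ W0, x ∈ p.1.1 ↔ BadP x (v k) := by
    intro k hk x hx
    rw [← hTm k hk, Finset.mem_filter]
    exact ⟨fun h => h.2, fun h => ⟨hx, h⟩⟩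
  intro i hi
  by_cases him : i < m
  · simp only [if_pos him]
    refine ⟨?_, ?_, ?_, ?_, ?_⟩
    · refine ((hvs k0).2.2.2.2 i him).trans (Finset.card_le_card ?_)
      intro x hx
      rw [Finset.mem_filter] at hx ⊢
      exact ⟨hx.1, (hmemT k0 hk0 x (hAW0 i him hx.1)).2 hx.2⟩
    · intro x hx
      exact (hA i him).2.1 x (Finset.mem_of_mem_filter x hx)
    · intro x hx y hy
      exact (hA i him).2.2.1 x (Finset.mem_of_mem_filter x hx) y (Finset.mem_of_mem_filter y hy)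
    · intro x hx y hy hne
      exact (hA i him).2.2.2.1 x (Finset.mem_of_mem_filter x hx) y (Finset.mem_of_mem_filter y hy) hne
    · intro j hj x hx y hy
      rw [if_pos (hj.trans him)] at hx
      exact (hA i him).2.2.2.2 j hj x (Finset.mem_of_mem_filter x hx) y (Finset.mem_of_mem_filter y hy)
  · have him' : i = m := by omega
    subst him'
    simp only [lt_irrefl, if_false]
    refine ⟨?_, ?_, ?_, ?_, ?_⟩
    · rw [Finset.card_image_of_injective _ hvinj, hKc]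
    · intro x hx
      obtain ⟨k, hk, rfl⟩ := Finset.mem_image.1 hx
      exact ⟨(hvs k).1, (hvs k).2.1, (hvs k).2.2.1⟩
    · intro x hx y hy
      obtain ⟨k, hk, rfl⟩ := Finset.mem_image.1 hx
      obtain ⟨k', hk', rfl⟩ := Finset.mem_image.1 hy
      exact hQ1 k hk k' hk'
    · intro x hx y hy hne
      obtain ⟨k, hk, rfl⟩ := Finset.mem_image.1 hx
      obtain ⟨k', hk', rfl⟩ := Finset.mem_image.1 hy
      have hkk : k ≠ k' := fun h => hne (by rw [h])
      rcases lt_or_gt_of_ne hkk with h | h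
      · exact ext_nprop (hpos _ (hvs k).1.1) (hvE k k' h)
      · intro h2
        exact ext_nprop (hpos _ (hvs k').1.1) (hvE k' k h) h2.symm
    · intro j hj x hx y hy
      rw [if_pos hj] at hx
      obtain ⟨k, hk, rfl⟩ := Finset.mem_image.1 hy
      rw [Finset.mem_filter] at hx
      have hxW := hAW0 j hj hx.1
      exact ⟨(hvs k).2.2.2.1 x ((hgood k).1 hxW), (hmemT k hk x hxW).1 hx.2⟩

/-- four groups -/
theorem grp_four (S : Set ℕ) (hpos : ∀ m ∈ S, 0 < m) (Q : ℕ) (hQ : 0 < Q) (φ : ℕ → ℤ → ℝ) (L : ℕ → ℕ × ℤ)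
    (hφ : PatOk φ L) (hnew : ∀ m < 4, NewV S φ (L m)) (N : ℕ) : Grp S Q L 4 N := by
  have h0 : ∀ N, Grp S Q L 0 N := fun N => ⟨fun _ => ∅, fun i hi => absurd hi (Nat.not_lt_zero i)⟩
  have h1 : ∀ N, Grp S Q L 1 N := grp_step S hpos Q hQ φ L 0 (Or.inl rfl) (hnew 0 (by norm_num)) h0
  have h2 : ∀ N, Grp S Q L 2 N :=
    grp_step S hpos Q hQ φ L 1 (Or.inr (hφ 1 (by norm_num) (by norm_num))) (hnew 1 (by norm_num)) h1
  have h3 : ∀ N, Grp S Q L 3 N :=
    grp_step S hpos Q hQ φ L 2 (Or.inr (hφ 2 (by norm_num) (by norm_num))) (hnew 2 (by norm_num)) h2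
  exact grp_step S hpos Q hQ φ L 3 (Or.inr (hφ 3 (by norm_num) (by norm_num))) (hnew 3 (by norm_num)) h3 N

end Pool.Agent.SL
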