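import Pool.Agent.SLT.DefsE

/-! SLOPES, one third (helper64): one slope `d s'`: if all constant terms `a + d E` are too good, the densities of bad
pairs are small -/

set_option autoImplicit false

namespace Pool.Agent.SL

open Finset Filter Topology

open Classical in
theorem key_uE (a : ℤ) (d : ℕ) (hd0 : 0 < d) (had : Int.gcd a d = 1) (W : Finset (ℕ × ℤ))
    (hW2 : ∀ x ∈ W, ¬ (2 : ℤ) ∣ x.2) (w : ℕ × ℤ → ℝ) (hw : ∀ x, 0 ≤ w x) (L2 : ℤ) (hL2 : L2 = 1 ∨ L2 = 2)
    (h3 : 3 ∣ d → a % 3 = L2) (τ : ℕ × ℤ → ℕ) (s : ℕ) (hs : 0 < s) (dd : ℕ × ℤ → ℕ)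
    (hd : ∀ x ∈ W, s = dd x * x.1 ∧ x.1 ∣ dd x ∧ (d * dd x) % 3 = τ x) (E : ℕ)
    (hE : ∀ x ∈ W, ((dd x : ℤ) * x.2).natAbs ≤ E) (y : ℤ) (X T : ℕ) (hT : T * (6 * s) ≤ X) (B δ : ℝ) (hδ : 0 < δ)
    (hT' : (W.card + 2 * E : ℝ) * (∑ x ∈ W, w x) * 4 / δ + W.card < T)
    (hcon : ∀ h : ℤ, (a + d * h) % 3 = L2 → ¬ (2 : ℤ) ∣ a + d * h → Int.gcd (a + d * h) ((d * s : ℕ) : ℤ) = 1 →
      (∀ x ∈ W, a + d * h ≠ ((d * dd x : ℕ) : ℤ) * x.2) →
      ∑ x ∈ W, (if ¬ GoodP (a + d * h - ((d * dd x : ℕ) : ℤ) * x.2) ((d * dd x : ℕ) : ℤ) then w x else 0) + δ < B) :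
    ∑ x ∈ W, w x * FBE a d (dd x) ((L2 - (τ x : ℤ) * x.2) % 3) y X ≤ B - 3 * δ / 4 := by
  have hd0' : (0 : ℤ) < d := by exact_mod_cast hd0
  set Wt : ℝ := ∑ x ∈ W, w x with hWt
  have hWt0 : 0 ≤ Wt := Finset.sum_nonneg fun x _ => hw x
  set PH : ℤ → Prop := fun h => (a + d * h) % 3 = L2 ∧ ¬ (2 : ℤ) ∣ a + d * h ∧
    Int.gcd (a + d * h) ((d * s : ℕ) : ℤ) = 1 with hPH
  set Hu : Finset ℤ := (Ioc y (y + X)).filter PH with hHu
  have hHuc : (Hu.card : ℕ) = cntI PH y X := by rw [hHu]; unfold cntI; congr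
  -- many members
  have hnu : T ≤ Hu.card := by
    rw [hHuc]
    obtain ⟨c, hc3, hc2, hcs⟩ := exists_E a d s hs had L2 hL2 h3
    refine (cntI_class (6 * s) (by omega) c y X T hT).trans (cntI_mono (fun e he => ?_) y X)
    obtain ⟨k, hk⟩ := he
    push_cast at hk
    have e1 : a + (d : ℤ) * e = a + d * c + 6 * (d * s * k) := by
      have : e = c + 6 * s * k := by linarith
      rw [this]
      ring
    refine ⟨by omega, by omega, ?_⟩
    rw [← Int.isCoprime_iff_gcd_eq_one]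
    push_cast
    refine IsCoprime.mul_right ?_ ?_
    · rw [← Int.isCoprime_iff_gcd_eq_one] at had
      exact had.add_mul_left_left _
    · rw [← Int.isCoprime_iff_gcd_eq_one] at hcs
      have e2 : a + (d : ℤ) * e = (a + d * c) + (s : ℤ) * (6 * (d * k)) := by rw [e1]; ring
      rw [e2]
      exact hcs.add_mul_left_left _
  have hnuT : (T : ℝ) ≤ Hu.card := by exact_mod_cast hnu
  -- the excluded ones
  set X0 : Finset ℤ := W.image fun x => (dd x : ℤ) * x.2 - a / d with hX0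
  have hX0c : X0.card ≤ W.card := Finset.card_image_le
  have hX0m : ∀ h : ℤ, ∀ x ∈ W, a + d * h = ((d * dd x : ℕ) : ℤ) * x.2 → h ∈ X0 := by
    intro h x hx heq
    rw [hX0, Finset.mem_image]
    refine ⟨x, hx, ?_⟩
    push_cast at heq
    have h1 : a = (d : ℤ) * (dd x * x.2 - h) := by linarith
    have h2 : a / d = dd x * x.2 - h := by rw [h1]; exact Int.mul_ediv_cancel_left _ hd0'.ne'
    rw [h2]
    ring
  have hWc : (W.card : ℝ) < T := lt_of_le_of_lt (by
    have : 0 ≤ (W.card + 2 * E : ℝ) * Wt * 4 / δ := by positivity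
    linarith) hT'
  set f : ℤ → ℝ := fun h => ∑ x ∈ W,
    (if ¬ GoodP (a + d * h - ((d * dd x : ℕ) : ℤ) * x.2) ((d * dd x : ℕ) : ℤ) then w x else 0) with hf
  have hfnn : ∀ h, 0 ≤ f h := fun h => Finset.sum_nonneg fun x _ => by have := hw x; split_ifs <;> linarith
  have hfW : ∀ h, f h ≤ Wt := fun h => Finset.sum_le_sum fun x _ => by have := hw x; split_ifs <;> linarith
  have hfB : ∀ h ∈ Hu, h ∉ X0 → f h ≤ B - δ := by
    intro h hh hX
    obtain ⟨h1, h2, h3⟩ := (Finset.mem_filter.1 hh).2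
    have := hcon h h1 h2 h3 (fun x hx heq => hX (hX0m h x hx heq))
    simp only [hf]
    linarith
  have hBδ : 0 ≤ B - δ := by
    have h1 : ∃ h ∈ Hu, h ∉ X0 := by
      apply Finset.exists_mem_notMem_of_card_lt_card
      have : (X0.card : ℝ) < Hu.card := by
        have : (X0.card : ℝ) ≤ W.card := by exact_mod_cast hX0c
        linarith
      exact_mod_cast this
    obtain ⟨h, hh, hX⟩ := h1
    exact (hfnn h).trans (hfB h hh hX)
  have hsum : ∑ h ∈ Hu, f h ≤ (B - δ) * Hu.card + W.card * Wt := by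
    rw [← Finset.sum_filter_add_sum_filter_not Hu (fun h => h ∉ X0)]
    have h1 : ∑ h ∈ Hu.filter (fun h => h ∉ X0), f h ≤ (B - δ) * Hu.card := by
      calc _ ≤ ∑ _h ∈ Hu.filter (fun h => h ∉ X0), (B - δ) :=
            Finset.sum_le_sum fun h hh => hfB h (Finset.mem_filter.1 hh).1 (Finset.mem_filter.1 hh).2
        _ = ((Hu.filter (fun h => h ∉ X0)).card : ℝ) * (B - δ) := by rw [Finset.sum_const, nsmul_eq_mul]
        _ ≤ (Hu.card : ℝ) * (B - δ) := by
          refine mul_le_mul_of_nonneg_right ?_ hBδ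
          exact_mod_cast Finset.card_filter_le _ _
        _ = _ := by ring
    have h2 : ∑ h ∈ Hu.filter (fun h => ¬ h ∉ X0), f h ≤ W.card * Wt := by
      calc _ ≤ ∑ _h ∈ Hu.filter (fun h => ¬ h ∉ X0), Wt := Finset.sum_le_sum fun h _ => hfW h
        _ = ((Hu.filter (fun h => ¬ h ∉ X0)).card : ℝ) * Wt := by rw [Finset.sum_const, nsmul_eq_mul]
        _ ≤ _ := by
          refine mul_le_mul_of_nonneg_right ?_ hWt0
          have h3 : (Hu.filter (fun h => ¬ h ∉ X0)).card ≤ W.card := by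
            refine (Finset.card_le_card fun h hh => ?_).trans hX0c
            exact not_not.1 (Finset.mem_filter.1 hh).2
          exact_mod_cast h3
    linarith
  have hswap : ∑ h ∈ Hu, f h = ∑ x ∈ W, w x *
      ((Hu.filter fun h => ¬ GoodP (a + d * h - ((d * dd x : ℕ) : ℤ) * x.2) ((d * dd x : ℕ) : ℤ)).card : ℝ) := by
    simp only [hf]
    rw [Finset.sum_comm]
    refine Finset.sum_congr rfl fun x _ => ?_
    rw [← Finset.sum_filter, Finset.sum_const, nsmul_eq_mul, mul_comm]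
  -- one vertex
  have hone : ∀ x ∈ W, FBE a d (dd x) ((L2 - (τ x : ℤ) * x.2) % 3) y X * Hu.card ≤
      ((Hu.filter fun h => ¬ GoodP (a + d * h - ((d * dd x : ℕ) : ℤ) * x.2) ((d * dd x : ℕ) : ℤ)).card : ℝ) + 2 * E := by
    intro x hx
    obtain ⟨h1, h2, h3⟩ := hd x hx
    set κ : ℤ := (L2 - (τ x : ℤ) * x.2) % 3 with hκ
    have e0 : ∀ h : ℤ, a + (d : ℤ) * h - ((d * dd x : ℕ) : ℤ) * x.2 = a + d * (h - (dd x : ℤ) * x.2) := by
      intro h
      push_cast
      ring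
    have hiff : ∀ h : ℤ, PH h ↔ PE a d (dd x) κ (h - (dd x : ℤ) * x.2) := by
      intro h
      have h5 := pa_shift x L2 (τ x) (d * s) (d * dd x) (hW2 x hx) hL2 (by rw [h1]; ring) (h2.mul_left d) h3
        (a + d * h)
      rw [e0] at h5
      exact h5
    have e1 : Hu.card = cntI (fun h => PE a d (dd x) κ (h - (dd x : ℤ) * x.2)) y X := by
      rw [hHuc]
      congr 1
      funext h
      exact propext (hiff h)
    have e2 : (Hu.filter fun h => ¬ GoodP (a + d * h - ((d * dd x : ℕ) : ℤ) * x.2) ((d * dd x : ℕ) : ℤ)).card =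
        cntI (fun h => (fun e => PE a d (dd x) κ e ∧ ¬ GoodP (a + d * e) ((d * dd x : ℕ) : ℤ))
          (h - (dd x : ℤ) * x.2)) y X := by
      rw [hHu, Finset.filter_filter]
      unfold cntI
      congr 1
      ext h
      simp only [Finset.mem_filter]
      rw [← hiff h, e0]
    have h4 := cntI_shift (PE a d (dd x) κ) y X ((dd x : ℤ) * x.2)
    have h5 := cntI_shift' (fun e => PE a d (dd x) κ e ∧ ¬ GoodP (a + d * e) ((d * dd x : ℕ) : ℤ)) y X
      ((dd x : ℤ) * x.2)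
    rw [← e1] at h4
    rw [← e2] at h5
    have h6 := hE x hx
    set b : ℕ := (Hu.filter fun h =>
      ¬ GoodP (a + d * h - ((d * dd x : ℕ) : ℤ) * x.2) ((d * dd x : ℕ) : ℤ)).card with hb
    have h4' : (Hu.card : ℝ) ≤ nAE a d (dd x) κ y X + E := by
      have : Hu.card ≤ nAE a d (dd x) κ y X + E := h4.trans (Nat.add_le_add_left h6 _)
      exact_mod_cast this
    have h5' : (nBE a d (dd x) κ y X : ℝ) ≤ (b : ℝ) + E := by
      have : nBE a d (dd x) κ y X ≤ b + E := h5.trans (Nat.add_le_add_left h6 _)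
      exact_mod_cast this
    have h7 := FBE_nonneg a d (dd x) κ y X
    have h8 := FBE_le a d (dd x) κ y X
    have h9 := FBE_mul a d (dd x) κ y X
    have h10 : FBE a d (dd x) κ y X * Hu.card ≤ FBE a d (dd x) κ y X * (nAE a d (dd x) κ y X + E) :=
      mul_le_mul_of_nonneg_left h4' h7
    have h11 : FBE a d (dd x) κ y X * E ≤ E := by
      have : (0 : ℝ) ≤ E := Nat.cast_nonneg _
      nlinarith
    rw [mul_add, h9] at h10
    linarith
  have hfin : (∑ x ∈ W, w x * FBE a d (dd x) ((L2 - (τ x : ℤ) * x.2) % 3) y X) * Hu.card ≤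
      (B - δ) * Hu.card + (W.card + 2 * E) * Wt := by
    rw [Finset.sum_mul]
    calc ∑ x ∈ W, w x * FBE a d (dd x) ((L2 - (τ x : ℤ) * x.2) % 3) y X * Hu.card
        ≤ ∑ x ∈ W, (w x * ((Hu.filter fun h =>
            ¬ GoodP (a + d * h - ((d * dd x : ℕ) : ℤ) * x.2) ((d * dd x : ℕ) : ℤ)).card : ℝ) + w x * (2 * E)) := by
          refine Finset.sum_le_sum fun x hx => ?_
          rw [mul_assoc, ← mul_add]
          exact mul_le_mul_of_nonneg_left (hone x hx) (hw x)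
      _ = ∑ h ∈ Hu, f h + Wt * (2 * E) := by rw [Finset.sum_add_distrib, ← hswap, ← Finset.sum_mul]
      _ ≤ (B - δ) * Hu.card + W.card * Wt + Wt * (2 * E) := by linarith
      _ = _ := by ring
  have hTpos : (0 : ℝ) < T := lt_of_le_of_lt (Nat.cast_nonneg _) hWc
  have hHpos : (0 : ℝ) < Hu.card := lt_of_lt_of_le hTpos hnuT
  have hlast : (W.card + 2 * E : ℝ) * Wt ≤ δ / 4 * Hu.card := by
    have h1 : (W.card + 2 * E : ℝ) * Wt * 4 / δ ≤ Hu.card := by
      have : (0 : ℝ) ≤ W.card := Nat.cast_nonneg _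
      linarith
    rw [div_le_iff₀ hδ] at h1
    linarith
  have h12 : (∑ x ∈ W, w x * FBE a d (dd x) ((L2 - (τ x : ℤ) * x.2) % 3) y X) * Hu.card ≤
      (B - 3 * δ / 4) * Hu.card := by
    calc _ ≤ (B - δ) * Hu.card + δ / 4 * Hu.card := by linarith
      _ = _ := by ring
  exact le_of_mul_le_mul_right h12 hHpos

end Pool.Agent.SL
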