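import Pool.Agent.SLT.DefsE

/-! SLOPES, one third (helper64): limit densities along an ultrafilter, modifications of arbitrary pairs -/

set_option autoImplicit false

namespace Pool.Agent.SL

open Finset Filter Topology

/-- the mean over `t ∈ Φ n`, `d t ≡ τ`, of the bad densities; `z = (n, a, d, y, x)` -/
noncomputable def GBE (Φ : ℕ → Finset ℕ) (ν : ℝ) (τ : ℕ) (κ : ℤ) (z : ℕ × ℤ × ℕ × ℤ × ℕ) : ℝ :=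
  ν * (∑ t ∈ (Φ z.1).filter (fun t => (z.2.2.1 * t) % 3 = τ), FBE z.2.1 z.2.2.1 t κ z.2.2.2.1 z.2.2.2.2) / (Φ z.1).card

theorem GBE_nonneg (Φ : ℕ → Finset ℕ) (ν : ℝ) (hν : 0 < ν) (τ : ℕ) (κ : ℤ) (z : ℕ × ℤ × ℕ × ℤ × ℕ) :
    0 ≤ GBE Φ ν τ κ z := by
  unfold GBE
  have : 0 ≤ ∑ t ∈ (Φ z.1).filter (fun t => (z.2.2.1 * t) % 3 = τ), FBE z.2.1 z.2.2.1 t κ z.2.2.2.1 z.2.2.2.2 :=
    Finset.sum_nonneg fun d _ => FBE_nonneg _ _ _ _ _ _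
  positivity

theorem GBE_le (Φ : ℕ → Finset ℕ) (ν : ℝ) (hν : 0 < ν) (τ : ℕ) (κ : ℤ) (z : ℕ × ℤ × ℕ × ℤ × ℕ) :
    GBE Φ ν τ κ z ≤ ν * ((Φ z.1).filter (fun t => (z.2.2.1 * t) % 3 = τ)).card / (Φ z.1).card := by
  unfold GBE
  have h1 : ∑ t ∈ (Φ z.1).filter (fun t => (z.2.2.1 * t) % 3 = τ), FBE z.2.1 z.2.2.1 t κ z.2.2.2.1 z.2.2.2.2 ≤
      (((Φ z.1).filter (fun t => (z.2.2.1 * t) % 3 = τ)).card : ℝ) := by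
    calc _ ≤ ∑ _t ∈ (Φ z.1).filter (fun t => (z.2.2.1 * t) % 3 = τ), (1 : ℝ) :=
          Finset.sum_le_sum fun d _ => FBE_le _ _ _ _ _ _
      _ = _ := by rw [Finset.sum_const, nsmul_eq_mul, mul_one]
  gcongr

theorem GBE_le' (Φ : ℕ → Finset ℕ) (ν : ℝ) (hν : 0 < ν) (τ : ℕ) (κ : ℤ) (z : ℕ × ℤ × ℕ × ℤ × ℕ) :
    GBE Φ ν τ κ z ≤ ν := by
  refine (GBE_le Φ ν hν τ κ z).trans ?_
  rw [mul_div_assoc]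
  refine mul_le_of_le_one_right hν.le ?_
  refine div_le_one_of_le₀ ?_ (Nat.cast_nonneg _)
  exact_mod_cast Finset.card_filter_le _ _

/-- an ultrafilter of bad tuples -/
theorem exists_limE (Φ : ℕ → Finset ℕ) (P : ℕ → ℤ → ℕ → ℤ → ℕ → Prop)
    (hP : ∃ᶠ n in atTop, ∀ H : ℕ, ∃ (a : ℤ) (d : ℕ) (y : ℤ) (x : ℕ), H ≤ x ∧ P n a d y x) (ν : ℝ) (hν : 0 < ν) :
    ∃ (φ : ℕ → ℤ → ℝ) (𝒰 : Ultrafilter (ℕ × ℤ × ℕ × ℤ × ℕ)),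
      (∀ τ κ, Tendsto (GBE Φ ν τ κ) 𝒰 (𝓝 (φ τ κ))) ∧ (∀ τ κ, 0 ≤ φ τ κ) ∧ (∀ τ κ, φ τ κ ≤ ν) ∧
      (∀ᶠ z in (𝒰 : Filter (ℕ × ℤ × ℕ × ℤ × ℕ)), P z.1 z.2.1 z.2.2.1 z.2.2.2.1 z.2.2.2.2) ∧
      (∀ Q : ℕ → ℤ → ℕ → ℤ → ℕ → Prop,
        (∀ᶠ n in atTop, ∃ H : ℕ, ∀ (a : ℤ) (d : ℕ) (y : ℤ) (x : ℕ), H ≤ x → Q n a d y x) →
        ∀ᶠ z in (𝒰 : Filter (ℕ × ℤ × ℕ × ℤ × ℕ)), Q z.1 z.2.1 z.2.2.1 z.2.2.2.1 z.2.2.2.2) ∧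
      (∀ Q : ℕ → ℤ → ℕ → ℤ → ℕ → Prop,
        (∀ᶠ z in (𝒰 : Filter (ℕ × ℤ × ℕ × ℤ × ℕ)), Q z.1 z.2.1 z.2.2.1 z.2.2.2.1 z.2.2.2.2) →
        ∃ᶠ n in atTop, ∀ H : ℕ, ∃ (a : ℤ) (d : ℕ) (y : ℤ) (x : ℕ), H ≤ x ∧ Q n a d y x) := by
  classical
  set g : Filter (ℤ × ℕ × ℤ × ℕ) := comap (fun b : ℤ × ℕ × ℤ × ℕ => b.2.2.2) atTop with hg
  set 𝓕 : Filter (ℕ × ℤ × ℕ × ℤ × ℕ) := (atTop : Filter ℕ).curry g with h𝓕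
  have hgev : ∀ p : ℤ × ℕ × ℤ × ℕ → Prop,
      (∃ H : ℕ, ∀ (a : ℤ) (d : ℕ) (y : ℤ) (x : ℕ), H ≤ x → p (a, d, y, x)) → ∀ᶠ b in g, p b := by
    rintro p ⟨H, hH⟩
    rw [hg, Filter.eventually_comap]
    filter_upwards [Filter.eventually_ge_atTop H] with x hx b hb
    have := hH b.1 b.2.1 b.2.2.1 b.2.2.2 (by rw [hb]; exact hx)
    exact this
  have hev : ∀ Q : ℕ → ℤ → ℕ → ℤ → ℕ → Prop,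
      (∀ᶠ n in atTop, ∃ H : ℕ, ∀ (a : ℤ) (d : ℕ) (y : ℤ) (x : ℕ), H ≤ x → Q n a d y x) →
      ∀ᶠ z in 𝓕, Q z.1 z.2.1 z.2.2.1 z.2.2.2.1 z.2.2.2.2 := by
    intro Q hQ
    rw [h𝓕, Filter.eventually_curry_iff]
    filter_upwards [hQ] with n hn
    exact hgev (fun b => Q n b.1 b.2.1 b.2.2.1 b.2.2.2) hn
  have hfr : ∃ᶠ z in 𝓕, z ∈ {z : ℕ × ℤ × ℕ × ℤ × ℕ | P z.1 z.2.1 z.2.2.1 z.2.2.2.1 z.2.2.2.2} := by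
    intro hcon
    rw [h𝓕, Filter.eventually_curry_iff] at hcon
    refine hP ?_
    filter_upwards [hcon] with n hn hH
    rw [hg, Filter.eventually_comap] at hn
    obtain ⟨H, hH2⟩ := Filter.eventually_atTop.1 hn
    obtain ⟨a, d, y, x, hx, hPx⟩ := hH H
    exact hH2 x hx (a, d, y, x) rfl hPx
  have : NeBot (𝓕 ⊓ 𝓟 {z : ℕ × ℤ × ℕ × ℤ × ℕ | P z.1 z.2.1 z.2.2.1 z.2.2.2.1 z.2.2.2.2}) :=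
    Filter.frequently_mem_iff_neBot.1 hfr
  set 𝒰 : Ultrafilter (ℕ × ℤ × ℕ × ℤ × ℕ) :=
    Ultrafilter.of (𝓕 ⊓ 𝓟 {z : ℕ × ℤ × ℕ × ℤ × ℕ | P z.1 z.2.1 z.2.2.1 z.2.2.2.1 z.2.2.2.2}) with h𝒰
  have hle : (𝒰 : Filter (ℕ × ℤ × ℕ × ℤ × ℕ)) ≤
      𝓕 ⊓ 𝓟 {z : ℕ × ℤ × ℕ × ℤ × ℕ | P z.1 z.2.1 z.2.2.1 z.2.2.2.1 z.2.2.2.2} := Ultrafilter.of_le _
  have hlim : ∀ τ κ, ∃ c ∈ Set.Icc (0 : ℝ) ν, Tendsto (GBE Φ ν τ κ) 𝒰 (𝓝 c) := by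
    intro τ κ
    obtain ⟨c, hc, hc2⟩ := (isCompact_Icc (a := (0 : ℝ)) (b := ν)).ultrafilter_le_nhds (𝒰.map (GBE Φ ν τ κ)) (by
      rw [Filter.le_principal_iff, Ultrafilter.mem_coe, Ultrafilter.mem_map]
      refine Filter.univ_mem' fun z => ?_
      exact ⟨GBE_nonneg Φ ν hν τ κ z, GBE_le' Φ ν hν τ κ z⟩)
    exact ⟨c, hc, hc2⟩
  choose φ hφ hφ2 using hlim
  have hev2 : ∀ Q : ℕ → ℤ → ℕ → ℤ → ℕ → Prop,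
      (∀ᶠ n in atTop, ∃ H : ℕ, ∀ (a : ℤ) (d : ℕ) (y : ℤ) (x : ℕ), H ≤ x → Q n a d y x) →
      ∀ᶠ z in (𝒰 : Filter (ℕ × ℤ × ℕ × ℤ × ℕ)), Q z.1 z.2.1 z.2.2.1 z.2.2.2.1 z.2.2.2.2 :=
    fun Q hQ => (hle.trans inf_le_left) (hev Q hQ)
  refine ⟨φ, 𝒰, hφ2, fun τ κ => (hφ τ κ).1, fun τ κ => (hφ τ κ).2, ?_, hev2, ?_⟩
  · have h1 : {z : ℕ × ℤ × ℕ × ℤ × ℕ | P z.1 z.2.1 z.2.2.1 z.2.2.2.1 z.2.2.2.2} ∈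
        (𝒰 : Filter (ℕ × ℤ × ℕ × ℤ × ℕ)) := (hle.trans inf_le_right) (Filter.mem_principal_self _)
    exact h1
  · intro Q hQ
    by_contra hcon
    rw [Filter.not_frequently] at hcon
    have h2 := hev2 (fun n a d y x => ¬ Q n a d y x) (by
      filter_upwards [hcon] with n hn
      push Not at hn
      exact hn)
    obtain ⟨z, h3, h4⟩ := (hQ.and h2).exists
    exact h4 h3

end Pool.Agent.SL
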