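import Pool.Agent.SLT.StepE
import Pool.Agent.SLT.LimE
import Pool.Agent.SLT.Grp
import Pool.Agent.SLT.Fin4
import Pool.Agent.SLT.ConvE

/-! SLOPES, one third (helper64): for every pair `(a, d)` at least a third of all admissible modifications
`(a + d E, d t)` are good -/

set_option autoImplicit false

namespace Pool.Agent.SL

open Finset Filter Topology

/-- constant types `(0, c)` -/
theorem pat_const (φ : ℕ → ℤ → ℝ) (c : ℤ) (hc : c = 1 ∨ c = 2) (h : 2 / 3 < φ 0 c) : PatOk φ (fun _ => (0, c)) := by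
  have e : tyd φ (0, c) (0, c) = φ 0 c := by
    unfold tyd
    rcases hc with rfl | rfl <;> norm_num
  intro m hm hm4
  simp only [e, Finset.sum_const, Finset.card_range, nsmul_eq_mul]
  interval_cases m <;> norm_num <;> linarith

/-- the lower bounds needed for one new vertex -/
theorem hphi_ofE (S : Set ℕ) (Φ : ℕ → Finset ℕ) (hne : ∀ n, (Φ n).Nonempty) (ν : ℝ) (φ : ℕ → ℤ → ℝ)
    (𝒰 : Ultrafilter (ℕ × ℤ × ℕ × ℤ × ℕ)) (hlim : ∀ τ κ, Tendsto (GBE Φ ν τ κ) 𝒰 (𝓝 (φ τ κ)))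
    (hfr : ∀ Q : ℕ → ℤ → ℕ → ℤ → ℕ → Prop,
        (∀ᶠ z in (𝒰 : Filter (ℕ × ℤ × ℕ × ℤ × ℕ)), Q z.1 z.2.1 z.2.2.1 z.2.2.2.1 z.2.2.2.2) →
        ∃ᶠ n in atTop, ∀ H : ℕ, ∃ (a : ℤ) (d : ℕ) (y : ℤ) (x : ℕ), H ≤ x ∧ Q n a d y x) (c : ℤ)
    (hv : ∀ᶠ z in (𝒰 : Filter (ℕ × ℤ × ℕ × ℤ × ℕ)), (z.2.2.1 = 1 ∨ z.2.2.1 ∈ S) ∧
      Int.gcd z.2.1 (z.2.2.1 : ℤ) = 1 ∧ (3 ∣ z.2.2.1 → z.2.1 % 3 = c)) (δ : ℝ) (hδ : 0 < δ) :
    ∃ᶠ n in atTop, ∀ H : ℕ, ∃ (a : ℤ) (d : ℕ) (y : ℤ) (x : ℕ), (d = 1 ∨ d ∈ S) ∧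
      Int.gcd a d = 1 ∧ (3 ∣ d → a % 3 = c) ∧ H ≤ x ∧ ∀ τ < 3, ∀ κ : ℤ, 0 ≤ κ → κ < 3 →
      (φ τ κ - δ) * (Φ n).card ≤ ν * ∑ v ∈ (Φ n).filter (fun v => (d * v) % 3 = τ), FBE a d v κ y x := by
  have h0 := hfr (fun n a d y x => ((d = 1 ∨ d ∈ S) ∧ Int.gcd a d = 1 ∧ (3 ∣ d → a % 3 = c)) ∧
    ∀ τ < 3, ∀ κ : ℤ, 0 ≤ κ → κ < 3 →
      (φ τ κ - δ) * (Φ n).card ≤ ν * ∑ v ∈ (Φ n).filter (fun v => (d * v) % 3 = τ), FBE a d v κ y x) ?_
  · refine h0.mono fun n hn H => ?_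
    obtain ⟨a, d, y, x, hx, ⟨h1, h2, h3⟩, h4⟩ := hn H
    exact ⟨a, d, y, x, h1, h2, h3, hx, h4⟩
  · have h1 : ∀ᶠ z in (𝒰 : Filter (ℕ × ℤ × ℕ × ℤ × ℕ)), ∀ τ ∈ range 3, ∀ κ ∈ Finset.Ico (0 : ℤ) 3,
        φ τ κ - δ < GBE Φ ν τ κ z := by
      rw [Filter.eventually_all_finset]
      intro τ _
      rw [Filter.eventually_all_finset]
      intro κ _
      exact (hlim τ κ).eventually_const_lt (by linarith)
    filter_upwards [h1, hv] with z hz hz2
    refine ⟨hz2, fun τ hτ κ h0 h3 => ?_⟩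
    have h2 := hz τ (Finset.mem_range.2 hτ) κ (Finset.mem_Ico.2 ⟨h0, h3⟩)
    have h4 : (0 : ℝ) < (Φ z.1).card := by exact_mod_cast Finset.card_pos.2 (hne z.1)
    unfold GBE at h2
    rw [lt_div_iff₀ h4] at h2
    exact h2.le

/-- four groups of the given types: contradiction -/
theorem finishE (S : Set ℕ) (Φ : ℕ → Finset ℕ) (hpos : ∀ m ∈ S, 0 < m) (hmul : ∀ a ∈ S, ∀ b ∈ S, a * b ∈ S)
    (hΦ : ∀ n, (Φ n).Nonempty ∧ ∀ d ∈ Φ n, d ∈ S)
    (hF : ∀ m ∈ S, Tendsto (fun n => (((Φ n).filter fun d => m * d ∉ Φ n).card : ℝ) / (Φ n).card) atTop (𝓝 0))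
    (μ : ℕ) (hμ : μ ∈ S) (h3 : 3 ∣ μ ∨ ∀ s ∈ S, ¬ 3 ∣ s) (ν : ℝ) (hν : 0 < ν) (φ : ℕ → ℤ → ℝ)
    (hφ0 : ∀ τ κ, 0 ≤ φ τ κ) (L : ℕ → ℕ × ℤ)
    (hφ : ∀ m, ∀ δ : ℝ, 0 < δ → ∃ᶠ n in atTop, ∀ H : ℕ, ∃ (a : ℤ) (d : ℕ) (y : ℤ) (x : ℕ), (d = 1 ∨ d ∈ S) ∧
      Int.gcd a d = 1 ∧ (3 ∣ d → a % 3 = (L m).2) ∧ H ≤ x ∧ ∀ τ < 3, ∀ κ : ℤ, 0 ≤ κ → κ < 3 →
      (φ τ κ - δ) * (Φ n).card ≤ ν * ∑ v ∈ (Φ n).filter (fun v => (d * v) % 3 = τ), FBE a d v κ y x)
    (hL1 : ∀ m, (L m).1 < 3) (hL2 : ∀ m, (L m).2 = 1 ∨ (L m).2 = 2) (hL0 : ∀ m, 3 ∣ μ → (L m).1 = 0)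
    (hLν : ∀ m, ∀ δ : ℝ, 0 < δ → ∀ᶠ n in atTop, ∀ d : ℕ, (d = 1 ∨ d ∈ S) →
      (1 - δ) * (Φ n).card ≤ ν * ((Φ n).filter fun v => (d * v) % 3 = (L m).1).card ∧
      ν * ((Φ n).filter fun v => (d * v) % 3 = (L m).1).card ≤ (1 + δ) * (Φ n).card)
    (hpat : PatOk φ L) : False := by
  obtain ⟨k, hk, ⟨k', hkk⟩, hD⟩ := dhl4
  rw [hkk] at hD
  have hk' : 1 ≤ k' := by
    rcases Nat.eq_zero_or_pos k' with h0 | h0
    · rw [h0, Nat.mul_zero] at hkk; omega
    · exact h0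
  refine fin_groups hk' hD S hpos (4 * k').factorial (Nat.factorial_pos _)
    (fun p hp hpp => Nat.dvd_factorial hpp.pos hp) L ?_
  refine grp_four S hpos _ (Nat.factorial_pos _) φ L hpat ?_ k'
  intro m _
  exact new_vertexE S Φ hpos hmul hΦ (by convert hF) μ hμ h3 ν hν (L m) (hL1 m) (hL2 m) (hL0 m) (hLν m) φ hφ0 (hφ m)

/-- the property given by the equidistribution -/
def CvE (ε : ℝ) (Φ : Finset ℕ) (a : ℤ) (d : ℕ) (y : ℤ) (x : ℕ) : Prop :=
  ∀ t ∈ Φ, 0 < d → Int.gcd a d = 1 →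
    (¬ 3 ∣ d * t → 3 * (1 - shE a d t y x) - ε ≤ FBE a d t 0 y x + FBE a d t 1 y x + FBE a d t 2 y x) ∧
    (¬ 3 ∣ d → 3 ∣ t → 2 * (1 - shE a d t y x) - ε ≤ FBE a d t 1 y x + FBE a d t 2 y x) ∧
    (3 ∣ d → 1 - shE a d t y x - ε ≤ FBE a d t (a % 3) y x)

/-- the sum over the classes (no multiples of 3) -/
theorem sum_threeE (Φ : Finset ℕ) (ε : ℝ) (a : ℤ) (d : ℕ) (y : ℤ) (x : ℕ) (hd0 : 0 < d) (had : Int.gcd a d = 1)
    (h3 : ∀ t ∈ Φ, ¬ 3 ∣ d * t) (hc : CvE ε Φ a d y x) (hb : ∑ t ∈ Φ, shE a d t y x < (1 / 3 - ε) * Φ.card) :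
    (2 + 2 * ε) * Φ.card ≤ ∑ t ∈ Φ, (FBE a d t 0 y x + FBE a d t 1 y x + FBE a d t 2 y x) := by
  have h1 : ∑ t ∈ Φ, (3 * (1 - shE a d t y x) - ε) ≤
      ∑ t ∈ Φ, (FBE a d t 0 y x + FBE a d t 1 y x + FBE a d t 2 y x) :=
    Finset.sum_le_sum fun t ht => (hc t ht hd0 had).1 (h3 t ht)
  have h2 : ∑ t ∈ Φ, (3 * (1 - shE a d t y x) - ε) = (3 - ε) * Φ.card - 3 * ∑ t ∈ Φ, shE a d t y x := by
    rw [Finset.mul_sum]
    have : (3 - ε) * (Φ.card : ℝ) = ∑ _t ∈ Φ, (3 - ε) := by rw [Finset.sum_const, nsmul_eq_mul]; ring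
    rw [this, ← Finset.sum_sub_distrib]
    exact Finset.sum_congr rfl fun t _ => by ring
  rw [h2] at h1
  linarith

/-- the sum over the classes (`3 ∤ d`, most `t` multiples of 3) -/
theorem sum_twoE (Φ : Finset ℕ) (ε : ℝ) (a : ℤ) (d : ℕ) (y : ℤ) (x : ℕ) (hd0 : 0 < d) (had : Int.gcd a d = 1)
    (h3 : ((Φ.filter fun t => ¬ t % 3 = 0).card : ℝ) ≤ ε / 4 * Φ.card) (hε : 0 < ε) (hd3 : ¬ 3 ∣ d)
    (hc : CvE ε Φ a d y x) (hb : ∑ t ∈ Φ, shE a d t y x < (1 / 3 - ε) * Φ.card) :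
    (4 / 3 + ε / 2) * Φ.card ≤ ∑ t ∈ Φ.filter (fun t => (d * t) % 3 = 0), (FBE a d t 1 y x + FBE a d t 2 y x) := by
  have hfil : Φ.filter (fun t => (d * t) % 3 = 0) = Φ.filter (fun t => t % 3 = 0) := by
    refine Finset.filter_congr fun t _ => ?_
    rw [← Nat.dvd_iff_mod_eq_zero, ← Nat.dvd_iff_mod_eq_zero]
    constructor
    · intro h
      rcases Nat.prime_three.dvd_mul.1 h with h | h
      · exact absurd h hd3
      · exact h
    · exact fun h => h.mul_left d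
  rw [hfil]
  have h1 : ∑ t ∈ Φ.filter (fun t => t % 3 = 0), (2 * (1 - shE a d t y x) - ε) ≤
      ∑ t ∈ Φ.filter (fun t => t % 3 = 0), (FBE a d t 1 y x + FBE a d t 2 y x) := by
    refine Finset.sum_le_sum fun t ht => ?_
    rw [Finset.mem_filter] at ht
    exact (hc t ht.1 hd0 had).2.1 hd3 (Nat.dvd_of_mod_eq_zero ht.2)
  have h2 : ∑ t ∈ Φ, (2 * (1 - shE a d t y x) - ε) = (2 - ε) * Φ.card - 2 * ∑ t ∈ Φ, shE a d t y x := by
    rw [Finset.mul_sum]
    have : (2 - ε) * (Φ.card : ℝ) = ∑ _t ∈ Φ, (2 - ε) := by rw [Finset.sum_const, nsmul_eq_mul]; ring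
    rw [this, ← Finset.sum_sub_distrib]
    exact Finset.sum_congr rfl fun t _ => by ring
  rw [← Finset.sum_filter_add_sum_filter_not Φ (fun t => t % 3 = 0)] at h2
  have h4 : ∑ t ∈ Φ.filter (fun t => ¬ t % 3 = 0), (2 * (1 - shE a d t y x) - ε) ≤
      2 * ((Φ.filter fun t => ¬ t % 3 = 0).card : ℝ) := by
    calc _ ≤ ∑ _t ∈ Φ.filter (fun t => ¬ t % 3 = 0), (2 : ℝ) := by
          refine Finset.sum_le_sum fun t _ => ?_
          have := shE_nonneg a d t y x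
          linarith
      _ = _ := by rw [Finset.sum_const, nsmul_eq_mul]; ring
  nlinarith

/-- the sum over one class (`3 ∣ d`) -/
theorem sum_oneE (Φ : Finset ℕ) (ε : ℝ) (a : ℤ) (d : ℕ) (y : ℤ) (x : ℕ) (hd0 : 0 < d)
    (had : Int.gcd a d = 1) (hd3 : 3 ∣ d) (hc : CvE (ε / 2) Φ a d y x)
    (hb : ∑ t ∈ Φ, shE a d t y x < (1 / 3 - ε) * Φ.card) :
    (2 / 3 + ε / 2) * Φ.card ≤ ∑ t ∈ Φ.filter (fun t => (d * t) % 3 = 0), FBE a d t (a % 3) y x := by
  have hfil : Φ.filter (fun t => (d * t) % 3 = 0) = Φ :=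
    Finset.filter_true_of_mem fun t _ => Nat.mod_eq_zero_of_dvd (hd3.mul_right t)
  rw [hfil]
  have h1 : ∑ t ∈ Φ, (1 - shE a d t y x - ε / 2) ≤ ∑ t ∈ Φ, FBE a d t (a % 3) y x :=
    Finset.sum_le_sum fun t ht => (hc t ht hd0 had).2.2 hd3
  have h2 : ∑ t ∈ Φ, (1 - shE a d t y x - ε / 2) = (1 - ε / 2) * Φ.card - ∑ t ∈ Φ, shE a d t y x := by
    have : (1 - ε / 2) * (Φ.card : ℝ) = ∑ _t ∈ Φ, (1 - ε / 2) := by rw [Finset.sum_const, nsmul_eq_mul]; ring
    rw [this, ← Finset.sum_sub_distrib]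
    exact Finset.sum_congr rfl fun t _ => by ring
  rw [h2] at h1
  linarith

open Classical in
/-- **every pair `(a, d)`: at least a third of all admissible modifications are good** -/
theorem one_third_every (S : Set ℕ) (Φ : ℕ → Finset ℕ) (hpos : ∀ m ∈ S, 0 < m) (hmul : ∀ a ∈ S, ∀ b ∈ S, a * b ∈ S)
    (hΦ : ∀ n, (Φ n).Nonempty ∧ ∀ d ∈ Φ n, d ∈ S)
    (hF : ∀ m ∈ S, Tendsto (fun n => (((Φ n).filter fun d => m * d ∉ Φ n).card : ℝ) / (Φ n).card) atTop (𝓝 0))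
    (ε : ℝ) (hε : 0 < ε) :
    ∀ᶠ n in atTop, ∃ H : ℕ, ∀ (a : ℤ) (d : ℕ), (d = 1 ∨ d ∈ S) → Int.gcd a d = 1 → ∀ (y : ℤ) (x : ℕ), H ≤ x →
      (1 / 3 - ε) * (Φ n).card ≤ ∑ t ∈ Φ n, shE a d t y x := by
  by_contra hcon
  have hF' : ∀ m ∈ S, Tendsto (fun n => (((Φ n).filter fun d => m * d ∉ Φ n).card : ℝ) / (Φ n).card) atTop (𝓝 0) := by
    convert hF
  have hne : ∀ n, (Φ n).Nonempty := fun n => (hΦ n).1
  have hbad : ∃ᶠ n in atTop, ∀ H : ℕ, ∃ (a : ℤ) (d : ℕ) (y : ℤ) (x : ℕ), H ≤ x ∧ ((d = 1 ∨ d ∈ S) ∧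
      Int.gcd a d = 1 ∧ ∑ t ∈ Φ n, shE a d t y x < (1 / 3 - ε) * (Φ n).card) := by
    rw [Filter.not_eventually] at hcon
    refine hcon.mono fun n hn H => ?_
    push Not at hn
    obtain ⟨a, d, h1, h2, y, x, h3, h4⟩ := hn H
    exact ⟨a, d, y, x, h3, h1, h2, h4⟩
  have hcp : ∀ n, (0 : ℝ) < (Φ n).card := fun n => by exact_mod_cast Finset.card_pos.2 (hne n)
  have hdpos : ∀ d : ℕ, (d = 1 ∨ d ∈ S) → 0 < d := fun d h => by
    rcases h with h | h
    · omega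
    · exact hpos d h
  -- equidistribution
  have hconv : ∀ η : ℝ, 0 < η → ∀ᶠ n in atTop, ∃ H : ℕ, ∀ (a : ℤ) (d : ℕ) (y : ℤ) (x : ℕ), H ≤ x →
      CvE η (Φ n) a d y x := by
    intro η hη
    refine Filter.Eventually.of_forall fun n => ?_
    have h1 : ∀ t : ℕ, ∃ H : ℕ, t ∈ Φ n → ∀ (a : ℤ) (d : ℕ) (y : ℤ) (x : ℕ), 0 < d → Int.gcd a d = 1 → H ≤ x →
        (¬ 3 ∣ d * t → 3 * (1 - shE a d t y x) - η ≤ FBE a d t 0 y x + FBE a d t 1 y x + FBE a d t 2 y x) ∧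
        (¬ 3 ∣ d → 3 ∣ t → 2 * (1 - shE a d t y x) - η ≤ FBE a d t 1 y x + FBE a d t 2 y x) ∧
        (3 ∣ d → 1 - shE a d t y x - η ≤ FBE a d t (a % 3) y x) := by
      intro t
      by_cases ht : t ∈ Φ n
      · obtain ⟨H, hH⟩ := convE t (hpos t ((hΦ n).2 t ht)) η hη
        exact ⟨H, fun _ => hH⟩
      · exact ⟨0, fun h => absurd h ht⟩
    choose Hd hHd using h1
    refine ⟨∑ t ∈ Φ n, Hd t, fun a d y x hx t ht hd had => hHd t ht a d y x hd had (le_trans ?_ hx)⟩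
    exact Finset.single_le_sum (f := fun t => Hd t) (fun _ _ => Nat.zero_le _) ht
  -- the Foelner property
  have hFev : ∀ k ∈ S, ∀ η : ℝ, 0 < η → ∀ᶠ n in atTop,
      (((Φ n).filter fun d => k * d ∉ Φ n).card : ℝ) ≤ η * (Φ n).card := by
    intro k hk η hη
    filter_upwards [(hF' k hk).eventually_lt_const hη] with n hn
    rw [div_lt_iff₀ (hcp n)] at hn
    exact hn.le
  obtain ⟨s0, hs0⟩ := hne 0
  have hs0S : s0 ∈ S := (hΦ 0).2 s0 hs0
  by_cases hcase : ∃ μ ∈ S, 3 ∣ μ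
  · -- an element divisible by 3
    obtain ⟨μ, hμ, h3μ⟩ := hcase
    obtain ⟨φ, 𝒰, hlim, hφ0, hφ1, hP, hev, hfr⟩ := exists_limE Φ _ hbad 1 one_pos
    have hmany : ∀ η : ℝ, 0 < η → ∀ᶠ n in atTop,
        (((Φ n).filter fun d => ¬ d % 3 = 0).card : ℝ) ≤ η * (Φ n).card := by
      intro η hη
      filter_upwards [hFev μ hμ η hη] with n hn
      refine le_trans ?_ hn
      have h4 := folner_ge (Φ n) μ (hpos μ hμ) (fun d => if ¬ d % 3 = 0 then (1 : ℝ) else 0)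
        (fun d => by split_ifs <;> norm_num) (fun d => by split_ifs <;> norm_num)
      have h5 : ∑ u ∈ Φ n, (if ¬ (μ * u) % 3 = 0 then (1 : ℝ) else 0) = 0 := by
        refine Finset.sum_eq_zero fun u _ => ?_
        have : (μ * u) % 3 = 0 := Nat.mod_eq_zero_of_dvd (h3μ.mul_right u)
        simp [this]
      rw [h5, zero_add] at h4
      rw [Finset.card_filter]
      push_cast
      exact h4
    -- the class `c`
    obtain ⟨c, hc, hcd, hφc⟩ : ∃ c : ℤ, (c = 1 ∨ c = 2) ∧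
        (∀ᶠ z in (𝒰 : Filter (ℕ × ℤ × ℕ × ℤ × ℕ)), 3 ∣ z.2.2.1 → z.2.1 % 3 = c) ∧ 2 / 3 < φ 0 c := by
      rcases 𝒰.em (fun z => 3 ∣ z.2.2.1) with hd3 | hd3
      · -- `3 ∣ d`
        have h1 : ∀ᶠ z in (𝒰 : Filter (ℕ × ℤ × ℕ × ℤ × ℕ)), z.2.1 % 3 = 1 ∨ z.2.1 % 3 = 2 := by
          filter_upwards [hd3, hP] with z h2 h3
          have h4 : ¬ (3 : ℤ) ∣ z.2.1 := by
            intro h5
            have h6 : (3 : ℤ) ∣ (Int.gcd z.2.1 (z.2.2.1 : ℤ) : ℤ) := Int.dvd_coe_gcd h5 (by exact_mod_cast h2)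
            rw [h3.2.1] at h6
            norm_num at h6
          omega
        have key : ∀ c : ℤ, (∀ᶠ z in (𝒰 : Filter (ℕ × ℤ × ℕ × ℤ × ℕ)), z.2.1 % 3 = c) → 2 / 3 < φ 0 c := by
          intro c hc
          have hsum : ∀ᶠ z in (𝒰 : Filter (ℕ × ℤ × ℕ × ℤ × ℕ)), 2 / 3 + ε / 2 ≤ GBE Φ 1 0 c z := by
            have e2 := hev (fun n a d y x => CvE (ε / 2) (Φ n) a d y x) (hconv (ε / 2) (by linarith))
            filter_upwards [e2, hP, hd3, hc] with z h2 h3 h4 h5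
            have h6 := sum_oneE (Φ z.1) ε z.2.1 z.2.2.1 z.2.2.2.1 z.2.2.2.2 (hdpos _ h3.1) h3.2.1 h4 h2
              h3.2.2
            unfold GBE
            rw [one_mul, le_div_iff₀ (hcp z.1), ← h5]
            exact h6
          have := ge_of_tendsto (hlim 0 c) hsum
          linarith
        rcases Ultrafilter.eventually_or.1 h1 with h2 | h2
        · exact ⟨1, Or.inl rfl, h2.mono fun z h _ => h, key 1 h2⟩
        · exact ⟨2, Or.inr rfl, h2.mono fun z h _ => h, key 2 h2⟩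
      · -- `3 ∤ d`
        have hsum : ∀ᶠ z in (𝒰 : Filter (ℕ × ℤ × ℕ × ℤ × ℕ)), 4 / 3 + ε / 2 ≤ GBE Φ 1 0 1 z + GBE Φ 1 0 2 z := by
          have e1 := hev (fun n _ _ _ _ => (((Φ n).filter fun d => ¬ d % 3 = 0).card : ℝ) ≤ ε / 4 * (Φ n).card) (by
            filter_upwards [hmany (ε / 4) (by linarith)] with n hn
            exact ⟨0, fun _ _ _ _ _ => hn⟩)
          have e2 := hev (fun n a d y x => CvE ε (Φ n) a d y x) (hconv ε hε)
          filter_upwards [e1, e2, hP, hd3] with z h1 h2 h3 h4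
          have h6 := sum_twoE (Φ z.1) ε z.2.1 z.2.2.1 z.2.2.2.1 z.2.2.2.2 (hdpos _ h3.1) h3.2.1 h1 hε h4 h2 h3.2.2
          unfold GBE
          rw [one_mul, one_mul, ← add_div, ← Finset.sum_add_distrib, le_div_iff₀ (hcp z.1)]
          exact h6
        have hφs : 4 / 3 + ε / 2 ≤ φ 0 1 + φ 0 2 := ge_of_tendsto ((hlim 0 1).add (hlim 0 2)) hsum
        rcases le_total (φ 0 1) (φ 0 2) with h | h
        · exact ⟨2, Or.inr rfl, hd3.mono fun z h1 h2 => absurd h2 h1, by linarith⟩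
        · exact ⟨1, Or.inl rfl, hd3.mono fun z h1 h2 => absurd h2 h1, by linarith⟩
    refine finishE S Φ hpos hmul hΦ hF' μ hμ (Or.inl h3μ) 1 one_pos φ hφ0 (fun _ => (0, c))
      (fun _ δ hδ => hphi_ofE S Φ hne 1 φ 𝒰 hlim hfr c ?_ δ hδ) (fun _ => by norm_num) (fun _ => hc)
      (fun _ _ => rfl) ?_ (pat_const φ c hc hφc)
    · filter_upwards [hP, hcd] with z h1 h2
      exact ⟨h1.1, h1.2.1, h2⟩
    · intro m δ hδ
      filter_upwards [hmany δ hδ] with n hn d _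
      have h6 := Finset.card_filter_add_card_filter_not (s := Φ n) (fun v => (d * v) % 3 = 0)
      have h6' : (((Φ n).filter fun v => (d * v) % 3 = 0).card : ℝ) + ((Φ n).filter fun v => ¬ (d * v) % 3 = 0).card =
          (Φ n).card := by exact_mod_cast h6
      have h7 : (0 : ℝ) ≤ ((Φ n).filter fun v => ¬ (d * v) % 3 = 0).card := Nat.cast_nonneg _
      have h8 : (((Φ n).filter fun v => ¬ (d * v) % 3 = 0).card : ℝ) ≤ ((Φ n).filter fun d => ¬ d % 3 = 0).card := by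
        have : ((Φ n).filter fun v => ¬ (d * v) % 3 = 0).card ≤ ((Φ n).filter fun d => ¬ d % 3 = 0).card := by
          refine Finset.card_le_card fun v hv => ?_
          rw [Finset.mem_filter] at hv ⊢
          refine ⟨hv.1, fun h => hv.2 ?_⟩
          exact Nat.mod_eq_zero_of_dvd ((Nat.dvd_of_mod_eq_zero h).mul_left d)
        exact_mod_cast this
      show (1 - δ) * ((Φ n).card : ℝ) ≤ 1 * (((Φ n).filter fun v => (d * v) % 3 = 0).card : ℝ) ∧
        1 * (((Φ n).filter fun v => (d * v) % 3 = 0).card : ℝ) ≤ (1 + δ) * (Φ n).card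
      constructor
      · linarith
      · have := mul_pos hδ (hcp n)
        linarith
  · push Not at hcase
    have hΦ3 : ∀ n, ∀ d ∈ Φ n, ¬ 3 ∣ d := fun n d hd => hcase d ((hΦ n).2 d hd)
    have hd3 : ∀ d : ℕ, (d = 1 ∨ d ∈ S) → ¬ 3 ∣ d := fun d h => by
      rcases h with h | h
      · rw [h]; norm_num
      · exact hcase d h
    have hdt : ∀ d : ℕ, (d = 1 ∨ d ∈ S) → ∀ n, ∀ t ∈ Φ n, ¬ 3 ∣ d * t := fun d h n t ht h2 => by
      rcases Nat.prime_three.dvd_mul.1 h2 with h3 | h3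
      · exact hd3 d h h3
      · exact hΦ3 n t ht h3
    by_cases hc2 : ∃ μ ∈ S, μ % 3 = 2
    · -- both signs
      obtain ⟨μ, hμ, hμ2⟩ := hc2
      obtain ⟨φ, 𝒰, hlim, hφ0, _, hP, hev, hfr⟩ := exists_limE Φ _ hbad 2 two_pos
      -- half of the elements in each class
      have hsplit : ∀ n, (((Φ n).filter fun d => d % 3 = 1).card : ℝ) + ((Φ n).filter fun d => d % 3 = 2).card =
          (Φ n).card := by
        intro n
        have h6 := Finset.card_filter_add_card_filter_not (s := Φ n) (fun d => d % 3 = 1)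
        have h7 : (Φ n).filter (fun d => ¬ d % 3 = 1) = (Φ n).filter (fun d => d % 3 = 2) := by
          refine Finset.filter_congr fun d hd => ?_
          have := hΦ3 n d hd
          omega
        rw [h7] at h6
        exact_mod_cast h6
      have hswap : ∀ η : ℝ, 0 < η → ∀ᶠ n in atTop,
          (((Φ n).filter fun d => d % 3 = 1).card : ℝ) ≤ ((Φ n).filter fun d => d % 3 = 2).card + η * (Φ n).card ∧
          (((Φ n).filter fun d => d % 3 = 2).card : ℝ) ≤ ((Φ n).filter fun d => d % 3 = 1).card + η * (Φ n).card := by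
        intro η hη
        filter_upwards [hFev μ hμ η hη] with n hn
        have key : ∀ a b : ℕ, (∀ u ∈ Φ n, (μ * u) % 3 = a → u % 3 = b) →
            (((Φ n).filter fun d => d % 3 = a).card : ℝ) ≤ ((Φ n).filter fun d => d % 3 = b).card + η * (Φ n).card := by
          intro a b hab
          have h4 := folner_ge (Φ n) μ (hpos μ hμ) (fun d => if d % 3 = a then (1 : ℝ) else 0)
            (fun d => by split_ifs <;> norm_num) (fun d => by split_ifs <;> norm_num)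
          have h5 : ∑ u ∈ Φ n, (if (μ * u) % 3 = a then (1 : ℝ) else 0) ≤
              ∑ u ∈ Φ n, (if u % 3 = b then (1 : ℝ) else 0) := by
            refine Finset.sum_le_sum fun u hu => ?_
            by_cases h6 : (μ * u) % 3 = a
            · simp [h6, hab u hu h6]
            · simp only [h6, if_false]
              split_ifs <;> norm_num
          rw [Finset.card_filter, Finset.card_filter]
          push_cast
          linarith
        constructor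
        · refine key 1 2 fun u _ h1 => ?_
          have h7 : (μ * u) % 3 = (2 * (u % 3)) % 3 := by rw [Nat.mul_mod, hμ2]
          omega
        · refine key 2 1 fun u _ h1 => ?_
          have h7 : (μ * u) % 3 = (2 * (u % 3)) % 3 := by rw [Nat.mul_mod, hμ2]
          omega
      have hhalf : ∀ a : ℕ, a = 1 ∨ a = 2 → ∀ δ : ℝ, 0 < δ → ∀ᶠ n in atTop, ∀ d : ℕ, (d = 1 ∨ d ∈ S) →
          (1 - δ) * (Φ n).card ≤ 2 * ((Φ n).filter fun v => (d * v) % 3 = a).card ∧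
          2 * ((Φ n).filter fun v => (d * v) % 3 = a).card ≤ (1 + δ) * (Φ n).card := by
        intro a ha δ hδ
        filter_upwards [hswap δ hδ] with n hn d hd
        have h8 := hsplit n
        have h9 := hd3 d hd
        have hfil : (Φ n).filter (fun v => (d * v) % 3 = a) = (Φ n).filter (fun v => v % 3 = 1) ∨
            (Φ n).filter (fun v => (d * v) % 3 = a) = (Φ n).filter (fun v => v % 3 = 2) := by
          have h10 : d % 3 = 1 ∨ d % 3 = 2 := by omega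
          rcases h10 with h10 | h10
          · have e : (Φ n).filter (fun v => (d * v) % 3 = a) = (Φ n).filter (fun v => v % 3 = a) := by
              refine Finset.filter_congr fun v _ => ?_
              have h7 : (d * v) % 3 = (1 * (v % 3)) % 3 := by rw [Nat.mul_mod, h10]
              omega
            rw [e]
            rcases ha with rfl | rfl
            · exact Or.inl rfl
            · exact Or.inr rfl
          · have e : (Φ n).filter (fun v => (d * v) % 3 = a) = (Φ n).filter (fun v => v % 3 = 3 - a) := by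
              refine Finset.filter_congr fun v hv => ?_
              have h7 : (d * v) % 3 = (2 * (v % 3)) % 3 := by rw [Nat.mul_mod, h10]
              have h11 := hΦ3 n v hv
              omega
            rw [e]
            rcases ha with rfl | rfl
            · exact Or.inr rfl
            · exact Or.inl rfl
        rcases hfil with h | h <;> rw [h]
        · constructor <;> linarith [hn.1, hn.2]
        · constructor <;> linarith [hn.1, hn.2]
      have hφ1 : ∀ τ κ, φ τ κ ≤ 1 := by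
        intro τ κ
        refine le_of_forall_pos_le_add fun δ hδ => ?_
        refine le_of_tendsto (hlim τ κ) ?_
        have e1 := hev (fun n _ d _ _ => (d = 1 ∨ d ∈ S) →
            2 * (((Φ n).filter fun v => (d * v) % 3 = τ).card : ℝ) ≤ (1 + δ) * (Φ n).card) (by
          by_cases hτ : τ = 1 ∨ τ = 2
          · filter_upwards [hhalf τ hτ δ hδ] with n hn
            exact ⟨0, fun _ d _ _ _ hd => (hn d hd).2⟩
          · refine Filter.Eventually.of_forall fun n => ⟨0, fun _ d _ _ _ hd => ?_⟩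
            have h9 : (Φ n).filter (fun v => (d * v) % 3 = τ) = ∅ := by
              rw [Finset.filter_eq_empty_iff]
              intro v hv
              have := hdt d hd n v hv
              omega
            rw [h9]
            have := hcp n
            simp only [Finset.card_empty, Nat.cast_zero, mul_zero]
            positivity)
        filter_upwards [e1, hP] with z hz hz2
        refine (GBE_le Φ 2 two_pos τ κ z).trans ?_
        rw [div_le_iff₀ (hcp z.1)]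
        have := hz hz2.1
        linarith
      have hsum : ∀ᶠ z in (𝒰 : Filter (ℕ × ℤ × ℕ × ℤ × ℕ)), 4 + 4 * ε ≤ GBE Φ 2 1 0 z + GBE Φ 2 1 1 z +
          GBE Φ 2 1 2 z + (GBE Φ 2 2 0 z + GBE Φ 2 2 1 z + GBE Φ 2 2 2 z) := by
        have e2 := hev (fun n a d y x => CvE ε (Φ n) a d y x) (hconv ε hε)
        filter_upwards [e2, hP] with z h2 h3
        have h4 := sum_threeE (Φ z.1) ε z.2.1 z.2.2.1 z.2.2.2.1 z.2.2.2.2 (hdpos _ h3.1) h3.2.1
          (hdt _ h3.1 z.1) h2 h3.2.2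
        set F : ℕ → ℝ := fun t => FBE z.2.1 z.2.2.1 t 0 z.2.2.2.1 z.2.2.2.2 +
          FBE z.2.1 z.2.2.1 t 1 z.2.2.2.1 z.2.2.2.2 + FBE z.2.1 z.2.2.1 t 2 z.2.2.2.1 z.2.2.2.2 with hFF
        have h5 : ∑ t ∈ Φ z.1, F t = ∑ t ∈ (Φ z.1).filter (fun t => (z.2.2.1 * t) % 3 = 1), F t +
            ∑ t ∈ (Φ z.1).filter (fun t => (z.2.2.1 * t) % 3 = 2), F t := by
          rw [← Finset.sum_filter_add_sum_filter_not (Φ z.1) (fun t => (z.2.2.1 * t) % 3 = 1)]
          congr 1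
          refine Finset.sum_congr (Finset.filter_congr fun t ht => ?_) fun _ _ => rfl
          have := hdt _ h3.1 z.1 t ht
          omega
        rw [h5, hFF, Finset.sum_add_distrib, Finset.sum_add_distrib, Finset.sum_add_distrib,
          Finset.sum_add_distrib] at h4
        unfold GBE
        rw [← add_div, ← add_div, ← add_div, ← add_div, ← add_div, le_div_iff₀ (hcp z.1)]
        linarith
      have hφs : 4 + 4 * ε ≤ φ 1 0 + φ 1 1 + φ 1 2 + (φ 2 0 + φ 2 1 + φ 2 2) :=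
        ge_of_tendsto ((((hlim 1 0).add (hlim 1 1)).add (hlim 1 2)).add
          (((hlim 2 0).add (hlim 2 1)).add (hlim 2 2))) hsum
      obtain ⟨L, hL, hpat⟩ := pat_two φ (by linarith) hφ0 hφ1
      have hnd : ¬ 3 ∣ μ := hcase μ hμ
      refine finishE S Φ hpos hmul hΦ hF' μ hμ (Or.inr hcase) 2 two_pos φ hφ0 L
        (fun m δ hδ => hphi_ofE S Φ hne 2 φ 𝒰 hlim hfr (L m).2 ?_ δ hδ)
        (fun m => by rcases (hL m).1 with h | h <;> omega)
        (fun m => (hL m).2) (fun m h => absurd h hnd) (fun m δ hδ => hhalf _ (hL m).1 δ hδ) hpat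
      filter_upwards [hP] with z h1
      exact ⟨h1.1, h1.2.1, fun h => absurd h (hd3 _ h1.1)⟩
    · -- all elements are 1 mod 3
      push Not at hc2
      have hS1 : ∀ s ∈ S, s % 3 = 1 := by
        intro s hs
        have h1 := hcase s hs
        have h2 := hc2 s hs
        omega
      have hd1 : ∀ d : ℕ, (d = 1 ∨ d ∈ S) → d % 3 = 1 := fun d h => by
        rcases h with h | h
        · rw [h]
        · exact hS1 d h
      obtain ⟨φ, 𝒰, hlim, hφ0, hφ1, hP, hev, hfr⟩ := exists_limE Φ _ hbad 1 one_pos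
      have hfil : ∀ d : ℕ, (d = 1 ∨ d ∈ S) → ∀ n, (Φ n).filter (fun v => (d * v) % 3 = 1) = Φ n := fun d hd n =>
        Finset.filter_true_of_mem fun v hv => by
          have h7 : (d * v) % 3 = (1 * 1) % 3 := by rw [Nat.mul_mod, hd1 d hd, hS1 v ((hΦ n).2 v hv)]
          omega
      have hsum : ∀ᶠ z in (𝒰 : Filter (ℕ × ℤ × ℕ × ℤ × ℕ)),
          2 + 2 * ε ≤ GBE Φ 1 1 0 z + GBE Φ 1 1 1 z + GBE Φ 1 1 2 z := by
        have e2 := hev (fun n a d y x => CvE ε (Φ n) a d y x) (hconv ε hε)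
        filter_upwards [e2, hP] with z h2 h3
        have h4 := sum_threeE (Φ z.1) ε z.2.1 z.2.2.1 z.2.2.2.1 z.2.2.2.2 (hdpos _ h3.1) h3.2.1
          (hdt _ h3.1 z.1) h2 h3.2.2
        unfold GBE
        rw [one_mul, one_mul, one_mul, ← add_div, ← add_div, ← Finset.sum_add_distrib, ← Finset.sum_add_distrib,
          hfil _ h3.1, le_div_iff₀ (hcp z.1)]
        exact h4
      have hφs : 2 + 2 * ε ≤ φ 1 0 + φ 1 1 + φ 1 2 :=
        ge_of_tendsto (((hlim 1 0).add (hlim 1 1)).add (hlim 1 2)) hsum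
      obtain ⟨L, hL, hpat⟩ := pat_one φ (by linarith) (fun κ => hφ0 1 κ) (fun κ => hφ1 1 κ)
      refine finishE S Φ hpos hmul hΦ hF' s0 hs0S (Or.inr hcase) 1 one_pos φ hφ0 L
        (fun m δ hδ => hphi_ofE S Φ hne 1 φ 𝒰 hlim hfr (L m).2 ?_ δ hδ) (fun m => by rw [(hL m).1]; norm_num)
        (fun m => (hL m).2) (fun m h => absurd h (hcase s0 hs0S)) ?_ hpat
      · filter_upwards [hP] with z h1
        exact ⟨h1.1, h1.2.1, fun h => absurd h (hd3 _ h1.1)⟩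
      · intro m δ hδ
        rw [(hL m).1]
        refine Filter.Eventually.of_forall fun n d hd => ?_
        rw [hfil d hd]
        have := mul_pos hδ (hcp n)
        constructor <;> linarith

end Pool.Agent.SL
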