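import Pool.Agent.SLT.Defs

/-! SLOPES, one third (helper64): the patterns of types mod 3 -/

set_option autoImplicit false
set_option linter.unusedSimpArgs false

namespace Pool.Agent.SL

open Finset Filter Topology

/-- the inequalities that allow to build four groups of types `L 0, .., L 3` -/
def PatOk (φ : ℕ → ℤ → ℝ) (L : ℕ → ℕ × ℤ) : Prop :=
  ∀ m : ℕ, 0 < m → m < 4 → (m : ℝ) - 1 < ∑ j ∈ range m, tyd φ (L m) (L j)

/-- the pattern with four given types -/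
private def mk4 (a b c d : ℕ × ℤ) (m : ℕ) : ℕ × ℤ :=
  if m = 0 then a else if m = 1 then b else if m = 2 then c else d

private theorem mk4_cases (a b c d : ℕ × ℤ) (P : ℕ × ℤ → Prop) (ha : P a) (hb : P b) (hc : P c) (hd : P d)
    (m : ℕ) : P (mk4 a b c d m) := by
  unfold mk4
  split_ifs <;> assumption

private theorem mk4_ok (φ : ℕ → ℤ → ℝ) (a b c d : ℕ × ℤ) (h1 : 0 < tyd φ b a)
    (h2 : 1 < tyd φ c a + tyd φ c b) (h3 : 2 < tyd φ d a + tyd φ d b + tyd φ d c) :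
    PatOk φ (mk4 a b c d) := by
  intro m hm hm4
  interval_cases m
  · simp only [Finset.sum_range_succ, Finset.sum_range_zero, mk4]
    norm_num
    exact h1
  · simp only [Finset.sum_range_succ, Finset.sum_range_zero, mk4]
    norm_num
    linarith
  · simp only [Finset.sum_range_succ, Finset.sum_range_zero, mk4]
    norm_num
    linarith

/-- constant types `(0, c)` -/
theorem pat_zero (φ : ℕ → ℤ → ℝ) (h : 4 / 3 < φ 0 1 + φ 0 2) (h1 : ∀ κ, φ 0 κ ≤ 1) :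
    ∃ L : ℕ → ℕ × ℤ, (∀ m, (L m).1 = 0 ∧ ((L m).2 = 1 ∨ (L m).2 = 2)) ∧ PatOk φ L := by
  have e1 : tyd φ (0, 1) (0, 1) = φ 0 1 := by norm_num [tyd]
  have e2 : tyd φ (0, 2) (0, 2) = φ 0 2 := by norm_num [tyd]
  have _ := h1 0
  rcases le_total (φ 0 1) (φ 0 2) with h2 | h2
  · refine ⟨mk4 (0, 2) (0, 2) (0, 2) (0, 2), ?_, ?_⟩
    · intro m
      refine mk4_cases _ _ _ _ (fun v => v.1 = 0 ∧ (v.2 = 1 ∨ v.2 = 2)) ?_ ?_ ?_ ?_ m <;> simp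
    · refine mk4_ok _ _ _ _ _ ?_ ?_ ?_ <;> rw [e2] <;> linarith
  · refine ⟨mk4 (0, 1) (0, 1) (0, 1) (0, 1), ?_, ?_⟩
    · intro m
      refine mk4_cases _ _ _ _ (fun v => v.1 = 0 ∧ (v.2 = 1 ∨ v.2 = 2)) ?_ ?_ ?_ ?_ m <;> simp
    · refine mk4_ok _ _ _ _ _ ?_ ?_ ?_ <;> rw [e1] <;> linarith

/-- types `(1, c)`: `c = 1, 2, 1, 2` or `1, 2, 2, 1` -/
theorem pat_one (φ : ℕ → ℤ → ℝ) (h : 2 < φ 1 0 + φ 1 1 + φ 1 2) (h0 : ∀ κ, 0 ≤ φ 1 κ) (h1 : ∀ κ, φ 1 κ ≤ 1) :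
    ∃ L : ℕ → ℕ × ℤ, (∀ m, (L m).1 = 1 ∧ ((L m).2 = 1 ∨ (L m).2 = 2)) ∧ PatOk φ L := by
  have e11 : tyd φ (1, 1) (1, 1) = φ 1 0 := by norm_num [tyd]
  have e22 : tyd φ (1, 2) (1, 2) = φ 1 0 := by norm_num [tyd]
  have e21 : tyd φ (1, 2) (1, 1) = φ 1 1 := by norm_num [tyd]
  have e12 : tyd φ (1, 1) (1, 2) = φ 1 2 := by norm_num [tyd]
  have a0 := h1 0
  have a1 := h1 1
  have a2 := h1 2
  have _ := h0 0
  rcases le_total (φ 1 2) (φ 1 1) with h2 | h2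
  · refine ⟨mk4 (1, 1) (1, 2) (1, 1) (1, 2), ?_, ?_⟩
    · intro m
      refine mk4_cases _ _ _ _ (fun v => v.1 = 1 ∧ (v.2 = 1 ∨ v.2 = 2)) ?_ ?_ ?_ ?_ m <;> simp
    · refine mk4_ok _ _ _ _ _ ?_ ?_ ?_ <;> simp only [e11, e22, e21, e12] <;> linarith
  · refine ⟨mk4 (1, 1) (1, 2) (1, 2) (1, 1), ?_, ?_⟩
    · intro m
      refine mk4_cases _ _ _ _ (fun v => v.1 = 1 ∧ (v.2 = 1 ∨ v.2 = 2)) ?_ ?_ ?_ ?_ m <;> simp
    · refine mk4_ok _ _ _ _ _ ?_ ?_ ?_ <;> simp only [e11, e22, e21, e12] <;> linarith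

/-- types `(1, c)`, `(2, c)`: if `φ 1 0 + φ 1 1 + φ 1 2 > 2` as before; otherwise `φ 2 0 + φ 2 1 + φ 2 2 > 2` and the types
`(2,2), (2,1), (1,2), (1,1)` or `(2,1), (2,2), (1,2), (1,1)` or `(1,2), (1,1), (2,2), (1,2)` or
`(1,1), (1,2), (2,2), (1,2)` -/
theorem pat_two (φ : ℕ → ℤ → ℝ) (h : 4 < φ 1 0 + φ 1 1 + φ 1 2 + (φ 2 0 + φ 2 1 + φ 2 2))
    (h0 : ∀ τ κ, 0 ≤ φ τ κ) (h1 : ∀ τ κ, φ τ κ ≤ 1) :
    ∃ L : ℕ → ℕ × ℤ, (∀ m, ((L m).1 = 1 ∨ (L m).1 = 2) ∧ ((L m).2 = 1 ∨ (L m).2 = 2)) ∧ PatOk φ L := by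
  by_cases hs : 2 < φ 1 0 + φ 1 1 + φ 1 2
  · obtain ⟨L, hL, hP⟩ := pat_one φ hs (h0 1) (h1 1)
    exact ⟨L, fun m => ⟨Or.inl (hL m).1, (hL m).2⟩, hP⟩
  · push Not at hs
    have p0 := h1 1 0
    have p1 := h1 1 1
    have p2 := h1 1 2
    have q0 := h1 2 0
    have q1 := h1 2 1
    have q2 := h1 2 2
    have p0' := h0 1 0
    have p1' := h0 1 1
    have p2' := h0 1 2
    have f1 : tyd φ (2, 1) (2, 2) = φ 1 2 := by norm_num [tyd]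
    have f2 : tyd φ (1, 2) (2, 2) = φ 2 1 := by norm_num [tyd]
    have f3 : tyd φ (1, 2) (2, 1) = φ 2 0 := by norm_num [tyd]
    have f4 : tyd φ (1, 1) (2, 2) = φ 2 0 := by norm_num [tyd]
    have f5 : tyd φ (1, 1) (2, 1) = φ 2 2 := by norm_num [tyd]
    have f6 : tyd φ (1, 1) (1, 2) = φ 1 2 := by norm_num [tyd]
    have f7 : tyd φ (2, 2) (2, 1) = φ 1 1 := by norm_num [tyd]
    have f8 : tyd φ (2, 2) (1, 2) = φ 2 1 := by norm_num [tyd]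
    have f9 : tyd φ (2, 2) (1, 1) = φ 2 0 := by norm_num [tyd]
    have f10 : tyd φ (1, 2) (1, 2) = φ 1 0 := by norm_num [tyd]
    have f11 : tyd φ (1, 2) (1, 1) = φ 1 1 := by norm_num [tyd]
    have hor : 0 < φ 1 1 ∨ 0 < φ 1 2 := by
      by_contra hc
      push Not at hc
      linarith [hc.1, hc.2]
    by_cases hA : 2 < φ 2 0 + φ 2 2 + φ 1 2
    · rcases hor with ho | ho
      · refine ⟨mk4 (2, 1) (2, 2) (1, 2) (1, 1), ?_, ?_⟩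
        · intro m
          refine mk4_cases _ _ _ _ (fun v => (v.1 = 1 ∨ v.1 = 2) ∧ (v.2 = 1 ∨ v.2 = 2)) ?_ ?_ ?_ ?_ m <;> simp
        · refine mk4_ok _ _ _ _ _ ?_ ?_ ?_ <;>
            simp only [f1, f2, f3, f4, f5, f6, f7, f8, f9, f10, f11] <;> linarith
      · refine ⟨mk4 (2, 2) (2, 1) (1, 2) (1, 1), ?_, ?_⟩
        · intro m
          refine mk4_cases _ _ _ _ (fun v => (v.1 = 1 ∨ v.1 = 2) ∧ (v.2 = 1 ∨ v.2 = 2)) ?_ ?_ ?_ ?_ m <;> simp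
        · refine mk4_ok _ _ _ _ _ ?_ ?_ ?_ <;>
            simp only [f1, f2, f3, f4, f5, f6, f7, f8, f9, f10, f11] <;> linarith
    · push Not at hA
      rcases hor with ho | ho
      · refine ⟨mk4 (1, 1) (1, 2) (2, 2) (1, 2), ?_, ?_⟩
        · intro m
          refine mk4_cases _ _ _ _ (fun v => (v.1 = 1 ∨ v.1 = 2) ∧ (v.2 = 1 ∨ v.2 = 2)) ?_ ?_ ?_ ?_ m <;> simp
        · refine mk4_ok _ _ _ _ _ ?_ ?_ ?_ <;>
            simp only [f1, f2, f3, f4, f5, f6, f7, f8, f9, f10, f11] <;> linarith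
      · refine ⟨mk4 (1, 2) (1, 1) (2, 2) (1, 2), ?_, ?_⟩
        · intro m
          refine mk4_cases _ _ _ _ (fun v => (v.1 = 1 ∨ v.1 = 2) ∧ (v.2 = 1 ∨ v.2 = 2)) ?_ ?_ ?_ ?_ m <;> simp
        · refine mk4_ok _ _ _ _ _ ?_ ?_ ?_ <;>
            simp only [f1, f2, f3, f4, f5, f6, f7, f8, f9, f10, f11] <;> linarith

end Pool.Agent.SL
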