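import Pool.Agent.SLT.Defs

/-! SLOPES, one third (helper64): lemmas for one new vertex -/

set_option autoImplicit false

namespace Pool.Agent.SL

open Finset Filter Topology

theorem folner_le (Φ : Finset ℕ) (m : ℕ) (hm : 0 < m) (g : ℕ → ℝ) (g0 : ∀ d, 0 ≤ g d) (g1 : ∀ d, g d ≤ 1) :
    ∑ u ∈ Φ, g (m * u) ≤ ∑ d ∈ Φ, g d + ((Φ.filter fun d => m * d ∉ Φ).card : ℝ) := by
  classical
  rw [← Finset.sum_filter_add_sum_filter_not Φ (fun u => m * u ∈ Φ)]
  have h1 : ∑ u ∈ Φ.filter (fun u => m * u ∈ Φ), g (m * u) ≤ ∑ d ∈ Φ, g d := by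
    have hinj : Set.InjOn (fun u => m * u) (Φ.filter (fun u => m * u ∈ Φ)) := fun a _ b _ hab =>
      Nat.eq_of_mul_eq_mul_left hm hab
    rw [← Finset.sum_image (f := g) hinj]
    refine Finset.sum_le_sum_of_subset_of_nonneg ?_ fun d _ _ => g0 d
    intro d hd
    obtain ⟨u, hu, rfl⟩ := Finset.mem_image.1 hd
    exact (Finset.mem_filter.1 hu).2
  have h2 : ∑ u ∈ Φ.filter (fun u => ¬ m * u ∈ Φ), g (m * u) ≤ ((Φ.filter fun d => m * d ∉ Φ).card : ℝ) := by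
    calc _ ≤ ∑ _u ∈ Φ.filter (fun u => ¬ m * u ∈ Φ), (1 : ℝ) := Finset.sum_le_sum fun u _ => g1 _
      _ = _ := by rw [Finset.sum_const, nsmul_eq_mul, mul_one]
  linarith

theorem folner_ge (Φ : Finset ℕ) (m : ℕ) (hm : 0 < m) (g : ℕ → ℝ) (g0 : ∀ d, 0 ≤ g d) (g1 : ∀ d, g d ≤ 1) :
    ∑ d ∈ Φ, g d ≤ ∑ u ∈ Φ, g (m * u) + ((Φ.filter fun d => m * d ∉ Φ).card : ℝ) := by
  classical
  set Φ1 := Φ.filter (fun u => m * u ∈ Φ) with hΦ1
  set I := Φ1.image (fun u => m * u) with hI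
  have hinj : Set.InjOn (fun u => m * u) Φ1 := fun a _ b _ hab => Nat.eq_of_mul_eq_mul_left hm hab
  have hIΦ : I ⊆ Φ := by
    intro d hd
    obtain ⟨u, hu, rfl⟩ := Finset.mem_image.1 hd
    exact (Finset.mem_filter.1 hu).2
  have h1 : ∑ d ∈ Φ, g d = ∑ d ∈ Φ \ I, g d + ∑ d ∈ I, g d := (Finset.sum_sdiff hIΦ).symm
  have h2 : ∑ d ∈ I, g d ≤ ∑ u ∈ Φ, g (m * u) := by
    rw [hI, Finset.sum_image hinj]
    exact Finset.sum_le_sum_of_subset_of_nonneg (Finset.filter_subset _ _) fun d _ _ => g0 _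
  have h3 : ∑ d ∈ Φ \ I, g d ≤ ((Φ.filter fun d => m * d ∉ Φ).card : ℝ) := by
    have h4 : ∑ d ∈ Φ \ I, g d ≤ ((Φ \ I).card : ℝ) := by
      calc _ ≤ ∑ _d ∈ Φ \ I, (1 : ℝ) := Finset.sum_le_sum fun u _ => g1 _
        _ = _ := by rw [Finset.sum_const, nsmul_eq_mul, mul_one]
    have h5 : (Φ \ I).card = (Φ.filter fun d => m * d ∉ Φ).card := by
      have h6 := Finset.card_sdiff_add_card_eq_card hIΦ
      have h7 : I.card = Φ1.card := Finset.card_image_of_injOn hinj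
      have h8 := Finset.card_filter_add_card_filter_not (s := Φ) (fun u => m * u ∈ Φ)
      rw [← hΦ1] at h8
      omega
    rw [h5] at h4
    exact h4
  linarith

/-- a residue class has many members in a long interval -/
theorem cntI_class (D : ℕ) (hD : 0 < D) (c y : ℤ) (x T : ℕ) (hT : T * D ≤ x) :
    T ≤ cntI (fun a => (D : ℤ) ∣ a - c) y x := by
  classical
  have hD0 : (0 : ℤ) < D := by exact_mod_cast hD
  have hinj : Function.Injective (fun i : ℕ => y + 1 + (c - (y + 1)) % D + (i : ℤ) * D) := by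
    intro i i' h3
    simp only at h3
    have h4 : (i : ℤ) * D = (i' : ℤ) * D := by linarith
    exact_mod_cast mul_right_cancel₀ hD0.ne' h4
  have h0 : T = ((range T).image (fun i : ℕ => y + 1 + (c - (y + 1)) % D + (i : ℤ) * D)).card := by
    rw [Finset.card_image_of_injective _ hinj, Finset.card_range]
  rw [h0, cntI_eq]
  refine Finset.card_le_card fun a ha => ?_
  obtain ⟨i, hi, rfl⟩ := Finset.mem_image.1 ha
  rw [Finset.mem_range] at hi
  have e1 := Int.emod_add_mul_ediv (c - (y + 1)) D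
  have e2 := Int.emod_nonneg (c - (y + 1)) hD0.ne'
  have e3 := Int.emod_lt_of_pos (c - (y + 1)) hD0
  have hT' : (T : ℤ) * D ≤ x := by exact_mod_cast hT
  have hi' : ((i : ℤ) + 1) * D ≤ T * D := by
    have : (i : ℤ) + 1 ≤ T := by exact_mod_cast hi
    exact mul_le_mul_of_nonneg_right this hD0.le
  have hi0 : (0 : ℤ) ≤ (i : ℤ) * D := mul_nonneg (Int.natCast_nonneg _) hD0.le
  have hi1 : ((i : ℤ) + 1) * D = i * D + D := by ring
  rw [Finset.mem_filter, Finset.mem_Ioc]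
  refine ⟨⟨by linarith, by linarith⟩, ⟨(i : ℤ) - (c - (y + 1)) / D, ?_⟩⟩
  linarith

/-- the shift `a = h - d x.2` -/
theorem pa_shift (x : ℕ × ℤ) (L2 : ℤ) (τ s d : ℕ) (hx2 : ¬ (2 : ℤ) ∣ x.2)
    (hL2 : L2 = 1 ∨ L2 = 2) (hs : s = d * x.1) (hxd : x.1 ∣ d) (hd : d % 3 = τ) (h : ℤ) :
    (h % 3 = L2 ∧ ¬ (2 : ℤ) ∣ h ∧ Int.gcd h s = 1) ↔ PA d ((L2 - (τ : ℤ) * x.2) % 3) (h - (d : ℤ) * x.2) := by
  unfold PA
  have hg : Int.gcd h s = 1 ↔ Int.gcd (h - (d : ℤ) * x.2) d = 1 := by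
    rw [← Int.isCoprime_iff_gcd_eq_one, ← Int.isCoprime_iff_gcd_eq_one]
    have h1 : IsCoprime (h - (d : ℤ) * x.2) (d : ℤ) ↔ IsCoprime h (d : ℤ) := by
      have e : h - (d : ℤ) * x.2 = h + (d : ℤ) * (-x.2) := by ring
      rw [e]
      exact ⟨fun h3 => by
        have := h3.add_mul_left_left x.2
        have e2 : h + (d : ℤ) * (-x.2) + d * x.2 = h := by ring
        rwa [e2] at this, fun h3 => h3.add_mul_left_left _⟩
    rw [h1, hs]
    push_cast
    constructor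
    · intro h2
      exact h2.of_mul_right_left
    · intro h2
      refine IsCoprime.mul_right h2 (h2.of_isCoprime_of_dvd_right ?_)
      exact_mod_cast hxd
  have h3 : h % 3 = L2 ↔ (h - (d : ℤ) * x.2) % 3 = (L2 - (τ : ℤ) * x.2) % 3 := by
    have e1 : ((d : ℤ) * x.2) % 3 = ((τ : ℤ) * x.2) % 3 := by
      have : (d : ℤ) % 3 = (τ : ℤ) % 3 := by
        rw [← hd]
        push_cast
        rw [Int.emod_emod_of_dvd _ (dvd_refl _)]
      rw [Int.mul_emod, this, ← Int.mul_emod]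
    omega
  rw [h3]
  constructor
  · rintro ⟨h4, h5, h6⟩
    refine ⟨hg.1 h6, ?_, h4⟩
    by_cases hd2 : (2 : ℤ) ∣ d
    · exact Dvd.dvd.mul_left hd2 _
    · refine Dvd.dvd.mul_right ?_ _
      have h7 : ¬ (2 : ℤ) ∣ (d : ℤ) * x.2 := by
        intro h8
        rcases Int.prime_two.dvd_or_dvd h8 with h9 | h9
        · exact hd2 h9
        · exact hx2 h9
      omega
  · rintro ⟨h4, h5, h6⟩
    refine ⟨h6, ?_, hg.2 h4⟩
    intro h7
    by_cases hd2 : (2 : ℤ) ∣ d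
    · have h8 : (2 : ℤ) ∣ h - (d : ℤ) * x.2 := dvd_sub h7 (hd2.mul_right _)
      have h9 : (2 : ℤ) ∣ (Int.gcd (h - (d : ℤ) * x.2) d : ℤ) := Int.dvd_coe_gcd h8 hd2
      rw [h4] at h9
      norm_num at h9
    · rcases Int.prime_two.dvd_or_dvd h5 with h9 | h9
      · have h10 : (2 : ℤ) ∣ (d : ℤ) * x.2 := by omega
        rcases Int.prime_two.dvd_or_dvd h10 with h11 | h11
        · exact hd2 h11
        · exact hx2 h11
      · exact hd2 h9

/-- shifting an interval, the other direction -/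
theorem cntI_shift' (P : ℤ → Prop) (y : ℤ) (x : ℕ) (c : ℤ) :
    cntI P y x ≤ cntI (fun a => P (a - c)) y x + c.natAbs := by
  have h1 := cntI_shift (fun a => P (a - c)) y x (-c)
  rw [Int.natAbs_neg] at h1
  have h2 : (fun a => (fun a => P (a - c)) (a - -c)) = P := by
    funext a
    simp
  rw [h2] at h1
  exact h1

end Pool.Agent.SL
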