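import Pool.Agent.SLT.KeyE

/-! SLOPES, one third (helper64): one new vertex, modifications of arbitrary pairs `(a, d)` -/

set_option autoImplicit false

namespace Pool.Agent.SL

open Finset Filter Topology

theorem mod3_iff (r t l : ℕ) (hr : ¬ 3 ∣ r) (ht : ¬ 3 ∣ t) (hl : l < 3) : (r * t) % 3 = l ↔ r % 3 = (l * t) % 3 := by
  rw [Nat.mul_mod r t, Nat.mul_mod l t]
  have h1 : r % 3 = 1 ∨ r % 3 = 2 := by omega
  have h2 : t % 3 = 1 ∨ t % 3 = 2 := by omega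
  rcases h1 with h1 | h1 <;> rcases h2 with h2 | h2 <;> rw [h1, h2] <;> interval_cases l <;> simp

open Classical in
/-- one new vertex -/
theorem new_vertexE (S : Set ℕ) (Φ : ℕ → Finset ℕ) (hpos : ∀ m ∈ S, 0 < m) (hmul : ∀ a ∈ S, ∀ b ∈ S, a * b ∈ S)
    (hΦ : ∀ n, (Φ n).Nonempty ∧ ∀ d ∈ Φ n, d ∈ S)
    (hF : ∀ m ∈ S, Tendsto (fun n => (((Φ n).filter fun d => m * d ∉ Φ n).card : ℝ) / (Φ n).card) atTop (𝓝 0))
    (μ : ℕ) (hμ : μ ∈ S) (h3 : 3 ∣ μ ∨ ∀ s ∈ S, ¬ 3 ∣ s) (ν : ℝ) (hν : 0 < ν) (L : ℕ × ℤ) (hL1 : L.1 < 3)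
    (hL2 : L.2 = 1 ∨ L.2 = 2) (hL0 : 3 ∣ μ → L.1 = 0)
    (hLν : ∀ δ : ℝ, 0 < δ → ∀ᶠ n in atTop, ∀ d : ℕ, (d = 1 ∨ d ∈ S) →
      (1 - δ) * (Φ n).card ≤ ν * ((Φ n).filter fun v => (d * v) % 3 = L.1).card ∧
      ν * ((Φ n).filter fun v => (d * v) % 3 = L.1).card ≤ (1 + δ) * (Φ n).card)
    (φ : ℕ → ℤ → ℝ) (hφ0 : ∀ τ κ, 0 ≤ φ τ κ)
    (hφ : ∀ δ : ℝ, 0 < δ → ∃ᶠ n in atTop, ∀ H : ℕ, ∃ (a : ℤ) (d : ℕ) (y : ℤ) (x : ℕ), (d = 1 ∨ d ∈ S) ∧
      Int.gcd a d = 1 ∧ (3 ∣ d → a % 3 = L.2) ∧ H ≤ x ∧ ∀ τ < 3, ∀ κ : ℤ, 0 ≤ κ → κ < 3 →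
      (φ τ κ - δ) * (Φ n).card ≤ ν * ∑ v ∈ (Φ n).filter (fun v => (d * v) % 3 = τ), FBE a d v κ y x) :
    NewV S φ L := by
  intro W hW w hw δ hδ
  by_contra hcon0
  push Not at hcon0
  set Wt : ℝ := ∑ x ∈ W, w x with hWt
  set B : ℝ := ∑ x ∈ W, w x * tyd φ L x with hB
  have hWt0 : 0 ≤ Wt := Finset.sum_nonneg fun x _ => hw x
  have hB0 : 0 ≤ B := Finset.sum_nonneg fun x _ => mul_nonneg (hw x) (hφ0 _ _)
  set D : ℝ := (1 + ν) * (Wt + B + 1) with hD
  have hD0 : 0 < D := by positivity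
  set η : ℝ := min (δ / 4) (1 / 2) / D with hη
  have hη0 : 0 < η := div_pos (lt_min (by linarith) (by norm_num)) hD0
  have hηD : η * D = min (δ / 4) (1 / 2) := div_mul_cancel₀ _ hD0.ne'
  have hηD1 : η * D ≤ δ / 4 := hηD.trans_le (min_le_left _ _)
  have hηD2 : η * D ≤ 1 / 2 := hηD.trans_le (min_le_right _ _)
  -- the multipliers
  set M : ℕ := μ * ∏ x ∈ W, x.1 ^ 2 with hM
  set m : ℕ × ℤ → ℕ := fun x => μ * x.1 * ∏ z ∈ W.erase x, z.1 ^ 2 with hm
  have hsq : ∀ x ∈ W, x.1 ^ 2 ∈ S := fun x hx => by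
    rw [sq]
    exact hmul _ (hW x hx).1 _ (hW x hx).1
  have hMS : M ∈ S := mul_prod_mem hmul W (fun x => x.1 ^ 2) hsq μ hμ
  have hmi : ∀ x ∈ W, m x ∈ S ∧ M = m x * x.1 ∧ x.1 ∣ m x := by
    intro x hx
    refine ⟨?_, ?_, ?_⟩
    · exact mul_prod_mem hmul _ (fun z => z.1 ^ 2) (fun z hz => hsq z (Finset.mem_of_mem_erase hz)) _
        (hmul _ hμ _ (hW x hx).1)
    · rw [hM, hm, ← Finset.mul_prod_erase W _ hx]
      ring
    · exact (dvd_mul_left _ _).mul_right _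
  have hmμ : ∀ x, μ ∣ m x := fun x => by
    rw [hm]
    simp only
    rw [mul_assoc]
    exact dvd_mul_right _ _
  have hMμ : μ ∣ M := dvd_mul_right _ _
  have hMpos := hpos M hMS
  have hxpos : ∀ x ∈ W, 0 < x.1 := fun x hx => hpos _ (hW x hx).1
  -- the index `n`
  have hFev : ∀ k ∈ S, ∀ᶠ n in atTop, (((Φ n).filter fun d => k * d ∉ Φ n).card : ℝ) ≤ η * (Φ n).card := by
    intro k hk
    filter_upwards [(hF k hk).eventually_lt_const hη0] with n hn
    have h2 : (0 : ℝ) < (Φ n).card := by exact_mod_cast Finset.card_pos.2 (hΦ n).1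
    rw [div_lt_iff₀ h2] at hn
    exact hn.le
  have hev1 : ∀ᶠ n in atTop, ∀ x ∈ W, (((Φ n).filter fun d => m x * d ∉ Φ n).card : ℝ) ≤ η * (Φ n).card := by
    rw [Filter.eventually_all_finset]
    exact fun x hx => hFev _ (hmi x hx).1
  obtain ⟨n, hn, ⟨hev, hevM⟩, hnν⟩ := ((hφ η hη0).and_eventually ((hev1.and (hFev M hMS)).and (hLν η hη0))).exists
  have hcpos : (0 : ℝ) < (Φ n).card := by exact_mod_cast Finset.card_pos.2 (hΦ n).1
  have hup : ∀ u ∈ Φ n, 0 < u := fun u hu => hpos u ((hΦ n).2 u hu)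
  -- the length
  set K : ℕ := M * ∑ u ∈ Φ n, u with hK
  set A : ℕ := ∑ x ∈ W, x.2.natAbs with hA
  obtain ⟨T, hT⟩ := exists_nat_gt ((W.card + 2 * (K * A : ℕ) : ℝ) * Wt * 4 / δ + W.card)
  obtain ⟨a, d, y, X, hdS, had, had3, hX, hFB⟩ := hn (T * (6 * K))
  obtain ⟨hnν1, hnν2⟩ := hnν d hdS
  have hd0 : 0 < d := by
    rcases hdS with h | h
    · omega
    · exact hpos d h
  have huK : ∀ u ∈ Φ n, u ≤ ∑ u ∈ Φ n, u := fun u hu =>
    Finset.single_le_sum (f := fun u => u) (fun _ _ => Nat.zero_le _) hu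
  have hMuK : ∀ u ∈ Φ n, M * u ≤ K := fun u hu => Nat.mul_le_mul_left M (huK u hu)
  have hdK : ∀ x ∈ W, ∀ u ∈ Φ n, m x * u ≤ K := by
    intro x hx u hu
    refine (Nat.mul_le_mul_right u ?_).trans (hMuK u hu)
    rw [(hmi x hx).2.1]
    exact Nat.le_mul_of_pos_right _ (hxpos x hx)
  -- classes mod 3
  have hcls : ∀ u ∈ Φ n, ∀ x ∈ W, (d * (M * u)) % 3 = L.1 ↔ (d * (m x * u)) % 3 = (L.1 * x.1) % 3 := by
    intro u hu x hx
    rcases h3 with h3 | h3
    · have e1 : (d * (M * u)) % 3 = 0 := Nat.mod_eq_zero_of_dvd (((h3.trans hMμ).mul_right u).mul_left d)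
      have e2 : (d * (m x * u)) % 3 = 0 := Nat.mod_eq_zero_of_dvd (((h3.trans (hmμ x)).mul_right u).mul_left d)
      rw [e1, e2, hL0 h3]
      simp
    · have e1 : d * (M * u) = (d * (m x * u)) * x.1 := by rw [(hmi x hx).2.1]; ring
      rw [e1]
      have hd3 : ¬ 3 ∣ d * (m x * u) := by
        have h5 : ¬ 3 ∣ m x * u := h3 _ (hmul _ (hmi x hx).1 _ ((hΦ n).2 u hu))
        rcases hdS with h | h
        · rw [h, one_mul]
          exact h5
        · exact h3 _ (hmul _ h _ (hmul _ (hmi x hx).1 _ ((hΦ n).2 u hu)))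
      exact mod3_iff _ _ _ hd3 (h3 _ (hW x hx).1) hL1
  set U : Finset ℕ := (Φ n).filter fun u => (d * (M * u)) % 3 = L.1 with hU
  set τ : ℕ × ℤ → ℕ := fun x => (L.1 * x.1) % 3 with hτ
  set κ : ℕ × ℤ → ℤ := fun x => (L.2 - (τ x : ℤ) * x.2) % 3 with hκ
  -- one slope
  have hkey : ∀ u ∈ U, ∑ x ∈ W, w x * FBE a d (m x * u) (κ x) y X ≤ B - 3 * δ / 4 := by
    intro u hu
    obtain ⟨huΦ, hu3⟩ := Finset.mem_filter.1 hu
    have hspos : 0 < M * u := Nat.mul_pos hMpos (hup u huΦ)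
    have hdiv : ∀ x ∈ W, (d * (M * u)) / x.1 = d * (m x * u) := by
      intro x hx
      have e1 : d * (M * u) = (d * (m x * u)) * x.1 := by rw [(hmi x hx).2.1]; ring
      rw [e1, Nat.mul_div_cancel _ (hxpos x hx)]
    have hdMS : d * (M * u) ∈ S := by
      rcases hdS with h | h
      · rw [h, one_mul]
        exact hmul _ hMS _ ((hΦ n).2 u huΦ)
      · exact hmul _ h _ (hmul _ hMS _ ((hΦ n).2 u huΦ))
    refine key_uE a d hd0 had W (fun x hx => (hW x hx).2.2.1) w hw L.2 hL2 had3 τ (M * u) hspos (fun x => m x * u) ?_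
      (K * A) ?_ y X T
      ((Nat.mul_le_mul_left T (Nat.mul_le_mul_left 6 (hMuK u huΦ))).trans hX) B δ hδ hT ?_
    · intro x hx
      refine ⟨?_, (hmi x hx).2.2.mul_right u, (hcls u huΦ x hx).1 hu3⟩
      rw [(hmi x hx).2.1]
      ring
    · intro x hx
      rw [Int.natAbs_mul, Int.natAbs_natCast]
      exact Nat.mul_le_mul (hdK x hx u huΦ)
        (Finset.single_le_sum (f := fun x : ℕ × ℤ => x.2.natAbs) (fun _ _ => Nat.zero_le _) hx)
    · intro h hh3 hh2 hhg hhne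
      have hok : OkV S (d * (M * u), a + d * h) := by
        refine ⟨hdMS, hhg, hh2, ?_⟩
        show ¬ (3 : ℤ) ∣ a + d * h
        rcases hL2 with h4 | h4 <;> omega
      have hext : ∀ x ∈ W, Ext x (d * (M * u), a + d * h) := by
        intro x hx
        refine ⟨d * (m x * u), ?_, ((hmi x hx).2.2.mul_right u).mul_left d, hhne x hx⟩
        show d * (M * u) = d * (m x * u) * x.1
        rw [(hmi x hx).2.1]
        ring
      have h5 := hcon0 (d * (M * u), a + d * h) hok hu3 hh3 hext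
      refine lt_of_le_of_lt (le_of_eq ?_) h5
      congr 1
      refine Finset.sum_congr rfl fun x hx => if_congr ?_ rfl rfl
      unfold BadP
      simp only
      rw [hdiv x hx]
  -- the cardinality of `U`
  have hUc : (U.card : ℝ) = ∑ u ∈ Φ n, (fun v : ℕ => if (d * v) % 3 = L.1 then (1 : ℝ) else 0) (M * u) := by
    rw [hU, Finset.card_filter]
    push_cast
    rfl
  have hUΦ : ((((Φ n).filter fun v => (d * v) % 3 = L.1).card : ℕ) : ℝ) =
      ∑ v ∈ Φ n, (fun v : ℕ => if (d * v) % 3 = L.1 then (1 : ℝ) else 0) v := by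
    rw [Finset.card_filter]
    push_cast
    rfl
  have hi0 : ∀ v : ℕ, (0 : ℝ) ≤ (fun v : ℕ => if (d * v) % 3 = L.1 then (1 : ℝ) else 0) v := fun v => by
    simp only
    split_ifs <;> norm_num
  have hi1 : ∀ v : ℕ, (fun v : ℕ => if (d * v) % 3 = L.1 then (1 : ℝ) else 0) v ≤ 1 := fun v => by
    simp only
    split_ifs <;> norm_num
  have hU1 : (U.card : ℝ) ≤ (((Φ n).filter fun v => (d * v) % 3 = L.1).card : ℝ) + η * (Φ n).card := by
    rw [hUc, hUΦ]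
    exact (folner_le (Φ n) M hMpos _ hi0 hi1).trans (by linarith)
  have hU2 : (((Φ n).filter fun v => (d * v) % 3 = L.1).card : ℝ) ≤ (U.card : ℝ) + η * (Φ n).card := by
    rw [hUc, hUΦ]
    exact (folner_ge (Φ n) M hMpos _ hi0 hi1).trans (by linarith)
  -- lower bound for the sum
  have hlow : ∀ x ∈ W, (tyd φ L x - η) * (Φ n).card ≤
      ν * (∑ u ∈ U, FBE a d (m x * u) (κ x) y X + η * (Φ n).card) := by
    intro x hx
    have hτ3 : τ x < 3 := Nat.mod_lt _ (by norm_num)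
    have hκ0 : 0 ≤ κ x := Int.emod_nonneg _ (by norm_num)
    have hκ3 : κ x < 3 := Int.emod_lt_of_pos _ (by norm_num)
    refine (hFB (τ x) hτ3 (κ x) hκ0 hκ3).trans ?_
    refine mul_le_mul_of_nonneg_left ?_ hν.le
    set g : ℕ → ℝ := fun v => if (d * v) % 3 = τ x then FBE a d v (κ x) y X else 0 with hg
    have hg0 : ∀ v, 0 ≤ g v := fun v => by
      simp only [hg]
      split_ifs
      · exact FBE_nonneg _ _ _ _ _ _
      · exact le_refl _
    have hg1 : ∀ v, g v ≤ 1 := fun v => by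
      simp only [hg]
      split_ifs
      · exact FBE_le _ _ _ _ _ _
      · norm_num
    have e1 : ∑ v ∈ (Φ n).filter (fun v => (d * v) % 3 = τ x), FBE a d v (κ x) y X = ∑ v ∈ Φ n, g v := by
      rw [Finset.sum_filter]
    have e2 : ∑ u ∈ U, FBE a d (m x * u) (κ x) y X = ∑ u ∈ Φ n, g (m x * u) := by
      rw [hU, Finset.sum_filter]
      refine Finset.sum_congr rfl fun u hu => ?_
      simp only [hg]
      exact if_congr (hcls u hu x hx) rfl rfl
    rw [e1, e2]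
    have h6 := folner_ge (Φ n) (m x) (hpos _ (hmi x hx).1) g hg0 hg1
    have h7 := hev x hx
    linarith
  -- conclusion
  have hUpos : (0 : ℝ) < U.card := by
    have h8 : ν * (((Φ n).filter fun v => (d * v) % 3 = L.1).card : ℝ) ≤ ν * (U.card + η * (Φ n).card) :=
      mul_le_mul_of_nonneg_left hU2 hν.le
    have h9 : (1 - η - ν * η) * (Φ n).card ≤ ν * U.card := by nlinarith
    have h10 : η * (1 + ν) ≤ 1 / 2 := by
      refine le_trans ?_ hηD2
      refine mul_le_mul_of_nonneg_left ?_ hη0.le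
      rw [hD]
      nlinarith
    have h11 : (0 : ℝ) < (1 - η - ν * η) * (Φ n).card := mul_pos (by linarith) hcpos
    have h12 : 0 < ν * (U.card : ℝ) := lt_of_lt_of_le h11 h9
    exact (mul_pos_iff_of_pos_left hν).1 h12
  have hBδ : 0 ≤ B - 3 * δ / 4 := by
    have h13 : U.Nonempty := Finset.card_pos.1 (by exact_mod_cast hUpos)
    obtain ⟨u, hu⟩ := h13
    exact (Finset.sum_nonneg fun x _ => mul_nonneg (hw x) (FBE_nonneg _ _ _ _ _ _)).trans (hkey u hu)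
  have hup2 : ∑ x ∈ W, w x * ∑ u ∈ U, FBE a d (m x * u) (κ x) y X ≤ (B - 3 * δ / 4) * U.card := by
    have h14 : ∑ x ∈ W, w x * ∑ u ∈ U, FBE a d (m x * u) (κ x) y X =
        ∑ u ∈ U, ∑ x ∈ W, w x * FBE a d (m x * u) (κ x) y X := by
      rw [Finset.sum_comm]
      exact Finset.sum_congr rfl fun x _ => Finset.mul_sum _ _ _
    rw [h14]
    calc _ ≤ ∑ _u ∈ U, (B - 3 * δ / 4) := Finset.sum_le_sum hkey
      _ = _ := by rw [Finset.sum_const, nsmul_eq_mul]; ring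
  have hA1 : (B - η * Wt) * (Φ n).card ≤ ν * (∑ x ∈ W, w x * ∑ u ∈ U, FBE a d (m x * u) (κ x) y X) +
      ν * η * Wt * (Φ n).card := by
    calc (B - η * Wt) * (Φ n).card = ∑ x ∈ W, w x * ((tyd φ L x - η) * (Φ n).card) := by
          rw [hB, hWt, Finset.mul_sum, ← Finset.sum_sub_distrib, Finset.sum_mul]
          exact Finset.sum_congr rfl fun x _ => by ring
      _ ≤ ∑ x ∈ W, w x * (ν * (∑ u ∈ U, FBE a d (m x * u) (κ x) y X + η * (Φ n).card)) :=
          Finset.sum_le_sum fun x hx => mul_le_mul_of_nonneg_left (hlow x hx) (hw x)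
      _ = _ := by
          rw [Finset.mul_sum, hWt, Finset.mul_sum, Finset.sum_mul, ← Finset.sum_add_distrib]
          exact Finset.sum_congr rfl fun x _ => by ring
  have hA2 : ν * (∑ x ∈ W, w x * ∑ u ∈ U, FBE a d (m x * u) (κ x) y X) ≤
      (B - 3 * δ / 4) * (1 + η + ν * η) * (Φ n).card := by
    calc ν * (∑ x ∈ W, w x * ∑ u ∈ U, FBE a d (m x * u) (κ x) y X) ≤ ν * ((B - 3 * δ / 4) * U.card) :=
          mul_le_mul_of_nonneg_left hup2 hν.le
      _ = (B - 3 * δ / 4) * (ν * U.card) := by ring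
      _ ≤ (B - 3 * δ / 4) * ((1 + η + ν * η) * (Φ n).card) := by
          refine mul_le_mul_of_nonneg_left ?_ hBδ
          have h15 : ν * (U.card : ℝ) ≤ ν * ((((Φ n).filter fun v => (d * v) % 3 = L.1).card : ℝ) + η * (Φ n).card) :=
            mul_le_mul_of_nonneg_left hU1 hν.le
          nlinarith
      _ = _ := by ring
  have hA3 : (B - η * Wt) ≤ (B - 3 * δ / 4) * (1 + η + ν * η) + ν * η * Wt := by
    have h16 : (B - η * Wt) * (Φ n).card ≤ ((B - 3 * δ / 4) * (1 + η + ν * η) + ν * η * Wt) * (Φ n).card := by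
      linarith
    exact le_of_mul_le_mul_right h16 hcpos
  have hA4 : (B - 3 * δ / 4) * (1 + η + ν * η) ≤ B - 3 * δ / 4 + η * (1 + ν) * B := by
    have h17 : 0 ≤ η * (1 + ν) := by positivity
    nlinarith
  have hA5 : η * D = η * (1 + ν) * Wt + η * (1 + ν) * B + η * (1 + ν) := by rw [hD]; ring
  have h18 : 0 < η * (1 + ν) := by positivity
  nlinarith

end Pool.Agent.SL
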